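import Pool.Agent.Work.MP_4bc1d7_an.Local

set_option autoImplicit false
set_option linter.unusedSectionVars false

open Filter Topology Metric
open scoped ENNReal

namespace Pool.Agent.Work.MP_4bc1d7_an

/-- Quantitative open mapping for operators with closed range. -/
theorem closed_range_bound {E F : Type*} [NormedAddCommGroup E] [NormedSpace ℂ E] [CompleteSpace E]
    [NormedAddCommGroup F] [NormedSpace ℂ F] [CompleteSpace F] (T : E →L[ℂ] F)
    (hcl : IsClosed (Set.range T)) :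
    ∃ C : ℝ, 0 ≤ C ∧ ∀ a, ∃ a', T a' = T a ∧ ‖a'‖ ≤ C * ‖T a‖ := by
  have hcl' : IsClosed ((LinearMap.range (T : E →ₗ[ℂ] F) : Submodule ℂ F) : Set F) := by
    have e : ((LinearMap.range (T : E →ₗ[ℂ] F) : Submodule ℂ F) : Set F) = Set.range T := by
      ext y
      simp [LinearMap.mem_range]
    rw [e]
    exact hcl
  have : CompleteSpace (LinearMap.range (T : E →ₗ[ℂ] F)) := hcl'.completeSpace_coe
  let T' : E →L[ℂ] LinearMap.range (T : E →ₗ[ℂ] F) :=
    T.codRestrict _ (fun x => LinearMap.mem_range_self (T : E →ₗ[ℂ] F) x)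
  have hsurj : Function.Surjective T' := by
    rintro ⟨y, x, hx⟩
    exact ⟨x, Subtype.ext hx⟩
  obtain ⟨C, hC, hC'⟩ := T'.exists_preimage_norm_le hsurj
  refine ⟨C, hC.le, fun a => ?_⟩
  obtain ⟨a', h1, h2⟩ := hC' (T' a)
  refine ⟨a', ?_, ?_⟩
  · exact congrArg Subtype.val h1
  · exact h2

/-- Finitely many leading exponents suffice. -/
theorem dickson {n : ℕ} (S : Set (Fin n → ℕ)) :
    ∃ G : Finset (Fin n → ℕ), (∀ e ∈ G, e ∈ S) ∧ ∀ β ∈ S, ∃ e ∈ G, e ≤ β := by
  have hpwo := Set.isPWO_of_wellQuasiOrderedLE S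
  have hfin : {x | Minimal (· ∈ S) x}.Finite :=
    (setOfPred_minimal_antichain _).finite_of_partiallyWellOrderedOn
      (hpwo.mono (setOfPred_minimal_subset _))
  refine ⟨hfin.toFinset, ?_, ?_⟩
  · intro e he
    rw [Set.Finite.mem_toFinset] at he
    exact he.1
  · intro β hβ
    rcases hpwo.exists_le_minimal hβ with ⟨z, hz, hz'⟩
    exact ⟨z, by rw [Set.Finite.mem_toFinset]; exact hz', hz⟩

/-- Division data valid for all large `s`. -/
theorem exists_division {n : ℕ} (X : Set (Fin n → ℂ)) :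
    ∃ (U : Set (Fin n → ℕ)) (S : ℕ), LExp X ⊆ U ∧ ∀ s ≥ S, ∃ c : (Fin n → ℕ) → A (Fin n → ℕ) ℂ,
      (∀ β ∈ U, ‖c β‖ ≤ 1/2) ∧
      ∀ β ∈ U, ∀ t ∈ {t : P n | scl s t.1 ∈ X}, ev t (c β) = mon t.1 β := by
  classical
  obtain ⟨G, hG1, hG2⟩ := dickson (LExp X)
  have hdat : ∀ e ∈ G, ∃ S, ∀ s ≥ S, ∀ β, e ≤ β → ∃ c : A (Fin n → ℕ) ℂ, ‖c‖ ≤ 1/2 ∧
      ∀ t ∈ {t : P n | scl s t.1 ∈ X}, ev t c = mon t.1 β := by
    intro e he
    obtain ⟨g, s0, hsum, hge, hlow, hvan⟩ := hG1 e he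
    obtain ⟨S, hS⟩ := tail_small (fun γ => ‖g γ‖) (fun _ => norm_nonneg _) s0 hsum e
      (fun γ hγ => by rw [hlow γ hγ, norm_zero]) (1/2) (by norm_num)
    refine ⟨max S s0, fun s hs β hβ => ?_⟩
    have h1 := hS s (le_of_max_le_left hs)
    exact div_data X e g s0 s hge hvan (le_of_max_le_right hs) hsum h1.1 h1.2 β hβ
  choose! Se hSe using hdat
  refine ⟨{β | ∃ e ∈ G, e ≤ β}, G.sup Se, fun β hβ => hG2 β hβ, fun s hs => ?_⟩
  have hall : ∀ β ∈ {β | ∃ e ∈ G, e ≤ β}, ∃ c : A (Fin n → ℕ) ℂ, ‖c‖ ≤ 1/2 ∧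
      ∀ t ∈ {t : P n | scl s t.1 ∈ X}, ev t c = mon t.1 β := by
    rintro β ⟨e, he, heβ⟩
    exact hSe e he s ((Finset.le_sup he).trans hs) β heβ
  choose! c hc using hall
  exact ⟨c, fun β hβ => (hc β hβ).1, fun β hβ => (hc β hβ).2⟩

/-- Local solvability at the origin. -/
theorem local_solve {n : ℕ} (X : Set (Fin n → ℂ))
    {E0 E1 E2 : Type*} [NormedAddCommGroup E0] [NormedSpace ℂ E0] [CompleteSpace E0]
    [NormedAddCommGroup E1] [NormedSpace ℂ E1] [CompleteSpace E1]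
    [NormedAddCommGroup E2] [NormedSpace ℂ E2] [CompleteSpace E2]
    (u : (Fin n → ℂ) → (E1 →L[ℂ] E0)) (w : (Fin n → ℂ) → (E2 →L[ℂ] E1)) (f : (Fin n → ℂ) → E1)
    (R' : ℝ) (hR' : 0 < R') (hu : DifferentiableOn ℂ u (ball 0 R'))
    (hw : DifferentiableOn ℂ w (ball 0 R')) (hf : DifferentiableOn ℂ f (ball 0 R'))
    (hcomp : ∀ z ∈ X, z ∈ ball 0 R' → ∀ y, u z (w z y) = 0)
    (huf : ∀ z ∈ X, z ∈ ball 0 R' → u z (f z) = 0)
    (C1 C2 : ℝ) (hC1 : 0 ≤ C1) (hC2 : 0 ≤ C2)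
    (h1 : ∀ x : E1, ∃ x' : E1, u 0 x' = u 0 x ∧ ‖x'‖ ≤ C1 * ‖u 0 x‖)
    (h2 : ∀ x : E1, u 0 x = 0 → ∃ y : E2, w 0 y = x ∧ ‖y‖ ≤ C2 * ‖x‖) :
    ∃ r > 0, ∃ g : (Fin n → ℂ) → E2, DifferentiableOn ℂ g (ball 0 r) ∧
      ∀ z ∈ X, z ∈ ball 0 r → w z (g z) = f z := by
  classical
  set R := R' / 2 with hRdef
  have hR : 0 < R := by positivity
  have hRR' : R < R' := by rw [hRdef]; linarith
  obtain ⟨au, Mu, hMu, hau, hsu⟩ := exists_expansion hR hRR' u hu
  obtain ⟨aw, Mw, hMw, haw, hsw⟩ := exists_expansion hR hRR' w hw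
  obtain ⟨af, Mf, hMf, haf, hsf⟩ := exists_expansion hR hRR' f hf
  obtain ⟨s1, hs1⟩ : ∃ s1 : ℕ, (1/2 : ℝ)^s1 < R := exists_pow_lt_of_lt_one hR (by norm_num)
  have hlt : ∀ s ≥ s1, (1/2 : ℝ)^s < R := fun s hs =>
    (pow_le_pow_of_le_one (by norm_num) (by norm_num) hs).trans_lt hs1
  have hu0 : u 0 = au 0 := by
    have h := hsu 0 (fun i => by simpa using hR)
    have h' : HasSum (fun β : Fin n → ℕ => if β = 0 then au 0 else 0) (au 0) := hasSum_ite_eq 0 (au 0)
    refine h.unique ?_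
    have e : (fun β : Fin n → ℕ => (∏ i, (0 : Fin n → ℂ) i ^ β i) • au β) =
        fun β : Fin n → ℕ => if β = 0 then au 0 else 0 := by
      funext β
      have := mon_zero_left β
      unfold mon at this
      rw [this]
      split_ifs with hβ
      · rw [hβ, one_smul]
      · rw [zero_smul]
    rw [e]
    exact h'
  have hw0 : w 0 = aw 0 := by
    have h := hsw 0 (fun i => by simpa using hR)
    have h' : HasSum (fun β : Fin n → ℕ => if β = 0 then aw 0 else 0) (aw 0) := hasSum_ite_eq 0 (aw 0)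
    refine h.unique ?_
    have e : (fun β : Fin n → ℕ => (∏ i, (0 : Fin n → ℂ) i ^ β i) • aw β) =
        fun β : Fin n → ℕ => if β = 0 then aw 0 else 0 := by
      funext β
      have := mon_zero_left β
      unfold mon at this
      rw [this]
      split_ifs with hβ
      · rw [hβ, one_smul]
      · rw [zero_smul]
    rw [e]
    exact h'
  set ε : ℝ := 1 / (10 * (C1 + C2 + 1)) with hεdef
  have hden : 0 < 10 * (C1 + C2 + 1) := by positivity
  have hε : 0 < ε := by positivity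
  have hε1 : ε * C1 ≤ 1/8 := by
    rw [hεdef, div_mul_eq_mul_div, one_mul, div_le_div_iff₀ hden (by norm_num)]
    nlinarith
  have hε2 : ε * C2 ≤ 1/10 := by
    rw [hεdef, div_mul_eq_mul_div, one_mul, div_le_div_iff₀ hden (by norm_num)]
    nlinarith
  obtain ⟨Su, hSu⟩ := sc'_small au s1 (exp_summable au Mu R hMu hR hau s1 hs1) ε hε
  obtain ⟨Sw, hSw⟩ := sc'_small aw s1 (exp_summable aw Mw R hMw hR haw s1 hs1) ε hε
  obtain ⟨U, S, hU, hdiv⟩ := exists_division X
  set s := max (max Su Sw) (max S s1) with hs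
  have hsSu : s ≥ Su := le_trans (le_max_left _ _) (le_max_left _ _)
  have hsSw : s ≥ Sw := le_trans (le_max_right _ _) (le_max_left _ _)
  have hsS : s ≥ S := le_trans (le_max_left _ _) (le_max_right _ _)
  have hss1 : s ≥ s1 := le_trans (le_max_right _ _) (le_max_right _ _)
  obtain ⟨c, hc1, hc2⟩ := hdiv s hsS
  have hrad : ∀ i : ℕ, rad s i < R := fun i => (rad_le_half s i).trans_lt (hlt s hss1)
  have hsclR : ∀ (t : P n) (i : Fin n), ‖scl s t.1 i‖ < R := fun t i =>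
    (scl_norm_le s t i).trans_lt (hrad i)
  have hsclball : ∀ t : P n, scl s t.1 ∈ ball (0 : Fin n → ℂ) R' := by
    intro t
    rw [mem_ball_zero_iff, pi_norm_lt_iff hR']
    exact fun i => (hsclR t i).trans hRR'
  have hevu : ∀ t : P n, u 0 + opEv t (sc' s au) = u (scl s t.1) := by
    intro t
    rw [hu0]
    exact opEv_sc' s au t (hSu s hsSu).1 _ (hsu _ (hsclR t))
  have hevw : ∀ t : P n, w 0 + opEv t (sc' s aw) = w (scl s t.1) := by
    intro t
    rw [hw0]
    exact opEv_sc' s aw t (hSw s hsSw).1 _ (hsw _ (hsclR t))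
  have hfs := exp_summable af Mf R hMf hR haf s (hlt s hss1)
  have hevf : ∀ t : P n, ev t (Amk (sc s af) (by simpa only [sc_norm] using hfs)) =
      f (scl s t.1) := fun t => ev_sc s af hfs t _ (hsf _ (hsclR t))
  obtain ⟨g, hg⟩ := solve_scaled {t : P n | scl s t.1 ∈ X} U c hc1 hc2
    (fun c hcU hcZ => uniq_scaled X U hU s c hcU hcZ)
    (u 0) (w 0) (sc' s au) (hSu s hsSu).1 (sc' s aw) (hSw s hsSw).1 C1 C2 ε hC1 hC2 hε.le h1 h2
    (hSu s hsSu).2 (hSw s hsSw).2 hε1 hε2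
    (fun t ht y => by
      rw [hevu t, hevw t]
      exact hcomp _ ht (hsclball t) y)
    (Amk (sc s af) (by simpa only [sc_norm] using hfs))
    (fun t ht => by
      rw [hevu t, hevf t]
      exact huf _ ht (hsclball t))
  -- the holomorphic solution
  set r : ℝ := (1/2) * ∏ i : Fin n, rad s i with hr
  have hrpos : 0 < r := by
    have : 0 < ∏ i : Fin n, rad s i := Finset.prod_pos (fun i _ => rad_pos s i)
    positivity
  have hrle : ∀ i : Fin n, r ≤ (1/2) * rad s i := by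
    intro i
    rw [hr]
    have h1 : ∏ j : Fin n, rad s j ≤ rad s i := by
      rw [← Finset.mul_prod_erase Finset.univ (fun j : Fin n => rad s j) (Finset.mem_univ i)]
      have : ∏ j ∈ Finset.univ.erase i, rad s (j : Fin n) ≤ 1 :=
        Finset.prod_le_one (fun j _ => (rad_pos s j).le) (fun j _ =>
          (rad_le_half s j).trans (pow_le_one₀ (by norm_num) (by norm_num)))
      calc rad s i * ∏ j ∈ Finset.univ.erase i, rad s (j : Fin n) ≤ rad s i * 1 :=
            mul_le_mul_of_nonneg_left this (rad_pos s i).le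
        _ = rad s i := mul_one _
    linarith
  have hrne : ∀ i : Fin n, (rad s i : ℂ) ≠ 0 := fun i => by exact_mod_cast (rad_pos s i).ne'
  let σ : (Fin n → ℂ) → (Fin n → ℂ) := fun z i => z i / (rad s i : ℂ)
  have hσd : Differentiable ℂ σ := by
    rw [differentiable_pi]
    intro i
    simp only [σ, div_eq_mul_inv]
    exact (differentiable_apply i).mul_const _
  have hσn : ∀ z ∈ ball (0 : Fin n → ℂ) r, ∀ i, ‖σ z i‖ < 1/2 := by
    intro z hz i
    rw [mem_ball_zero_iff, pi_norm_lt_iff hrpos] at hz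
    simp only [σ]
    rw [norm_div, Complex.norm_real, Real.norm_of_nonneg (rad_pos s i).le, div_lt_iff₀ (rad_pos s i)]
    exact (hz i).trans_le (hrle i)
  refine ⟨r, hrpos, fun z => ∑' β, mon (σ z) β • g β, ?_, ?_⟩
  · refine (series_differentiableOn g).comp hσd.differentiableOn ?_
    intro z hz
    rw [mem_ball_zero_iff, pi_norm_lt_iff (by norm_num)]
    exact hσn z hz
  · intro z hzX hz
    let t : P n := ⟨σ z, fun i => ((hσn z hz i).trans (by norm_num)).le⟩
    have hzt : scl s t.1 = z := by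
      funext i
      change (rad s i : ℂ) * (z i / (rad s i : ℂ)) = z i
      rw [mul_div_cancel₀ _ (hrne i)]
    have hkey := hg t (by
      change scl s t.1 ∈ X
      rw [hzt]
      exact hzX)
    rw [hevf t, hevw t, hzt] at hkey
    rw [hkey, ← (ev_hasSum t g).tsum_eq]

end Pool.Agent.Work.MP_4bc1d7_an
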