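import Mathlib

set_option autoImplicit false

open Filter Topology
open scoped ENNReal

namespace Pool.Agent.Work.MP_4bc1d7_an

/-- Absolutely summable families. -/
abbrev A (ι : Type*) (E : Type*) [NormedAddCommGroup E] := lp (fun _ : ι => E) 1

section basics

variable {ι : Type*} {E : Type*} [NormedAddCommGroup E]

theorem A_summable (a : A ι E) : Summable (fun β => ‖a β‖) := by
  have h := (lp.memℓp a).summable (by norm_num)
  simpa using h

theorem A_norm (a : A ι E) : ‖a‖ = ∑' β, ‖a β‖ := by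
  have h := lp.norm_eq_tsum_rpow (p := 1) (by norm_num) a
  simpa using h

theorem A_mem {a : ι → E} (h : Summable (fun β => ‖a β‖)) : Memℓp a 1 := by
  apply memℓp_gen
  simpa using h

/-- Build an element. -/
def Amk (a : ι → E) (h : Summable (fun β => ‖a β‖)) : A ι E := ⟨a, A_mem h⟩

@[simp] theorem Amk_apply (a : ι → E) (h : Summable (fun β => ‖a β‖)) (β : ι) :
    Amk a h β = a β := rfl

theorem A_norm_le {a : A ι E} {g : ι → ℝ} (hg : Summable g) (h : ∀ β, ‖a β‖ ≤ g β) :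
    ‖a‖ ≤ ∑' β, g β := by
  rw [A_norm]
  exact (A_summable a).tsum_le_tsum h hg

end basics

section iter

/-- Approximate solvability implies solvability. -/
theorem iterate_solve {A B : Type*} [NormedAddCommGroup A] [NormedSpace ℂ A]
    [NormedAddCommGroup B] [NormedSpace ℂ B] [CompleteSpace B] {τ : Type*}
    {Y : Type*} [NormedAddCommGroup Y] [NormedSpace ℂ Y]
    (L : τ → A →L[ℂ] Y) (M : τ → B →L[ℂ] Y) (Z : Set A) (C : ℝ) (hC : 0 ≤ C)
    (step : ∀ a ∈ Z, ∃ b : B, ∃ a' ∈ Z, ‖b‖ ≤ C * ‖a‖ ∧ ‖a'‖ ≤ (1/2) * ‖a‖ ∧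
      ∀ t, L t a = M t b + L t a') :
    ∀ a ∈ Z, ∃ b : B, ‖b‖ ≤ 2 * C * ‖a‖ ∧ ∀ t, L t a = M t b := by
  intro a ha
  choose fb fa hfa hb ha' hrel using step
  let nxt : Z → Z := fun x => ⟨fa x.1 x.2, hfa x.1 x.2⟩
  let seq : ℕ → Z := fun k => nxt^[k] ⟨a, ha⟩
  have hseq_succ : ∀ k, seq (k+1) = nxt (seq k) := fun k => Function.iterate_succ_apply' _ _ _
  have hnorm : ∀ k, ‖(seq k).1‖ ≤ (1/2)^k * ‖a‖ := by
    intro k
    induction k with
    | zero => simp [seq]
    | succ k ih =>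
      rw [hseq_succ]
      calc ‖(nxt (seq k)).1‖ ≤ (1/2) * ‖(seq k).1‖ := ha' _ _
        _ ≤ (1/2) * ((1/2)^k * ‖a‖) := by gcongr
        _ = (1/2)^(k+1) * ‖a‖ := by ring
  let bs : ℕ → B := fun k => fb (seq k).1 (seq k).2
  have hbs : ∀ k, ‖bs k‖ ≤ C * ‖a‖ * (1/2)^k := by
    intro k
    calc ‖bs k‖ ≤ C * ‖(seq k).1‖ := hb _ _
      _ ≤ C * ((1/2)^k * ‖a‖) := by gcongr; exact hnorm k
      _ = C * ‖a‖ * (1/2)^k := by ring
  have hgeo : Summable (fun k : ℕ => C * ‖a‖ * (1/2 : ℝ)^k) :=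
    (summable_geometric_two).mul_left _
  have hsn : Summable (fun k => ‖bs k‖) :=
    Summable.of_nonneg_of_le (fun _ => norm_nonneg _) hbs hgeo
  have hs : Summable bs := hsn.of_norm
  refine ⟨∑' k, bs k, ?_, ?_⟩
  · calc ‖∑' k, bs k‖ ≤ ∑' k, ‖bs k‖ := norm_tsum_le_tsum_norm hsn
      _ ≤ ∑' k : ℕ, C * ‖a‖ * (1/2 : ℝ)^k := hsn.tsum_le_tsum hbs hgeo
      _ = 2 * C * ‖a‖ := by rw [tsum_mul_left, tsum_geometric_two]; ring
  · intro t
    have h1 : HasSum (fun k => M t (bs k)) (M t (∑' k, bs k)) := (M t).hasSum hs.hasSum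
    have h2 : ∀ K, ∑ k ∈ Finset.range K, M t (bs k) = L t a - L t (seq K).1 := by
      intro K
      induction K with
      | zero => simp [seq]
      | succ K ih =>
        rw [Finset.sum_range_succ, ih, hseq_succ]
        have := hrel (seq K).1 (seq K).2 t
        rw [show (nxt (seq K)).1 = fa (seq K).1 (seq K).2 from rfl]
        rw [this]
        simp only [bs]
        abel
    have h3 : Tendsto (fun K => L t (seq K).1) atTop (𝓝 0) := by
      have h4 : Tendsto (fun K => ((seq K).1 : A)) atTop (𝓝 0) := by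
        apply squeeze_zero_norm hnorm
        have := (tendsto_pow_atTop_nhds_zero_of_lt_one (r := (1/2 : ℝ)) (by norm_num)
          (by norm_num)).mul_const ‖a‖
        simpa using this
      have := ((L t).continuous.tendsto 0).comp h4
      rw [map_zero] at this
      exact this
    have h5 : Tendsto (fun K => ∑ k ∈ Finset.range K, M t (bs k)) atTop (𝓝 (L t a)) := by
      simp only [h2]
      have := (tendsto_const_nhds (x := L t a)).sub h3
      simpa using this
    exact tendsto_nhds_unique h5 h1.tendsto_sum_nat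

end iter

section sumMap

variable {ι : Type*} {E Y : Type*} [NormedAddCommGroup E] [NormedSpace ℂ E]
  [NormedAddCommGroup Y] [NormedSpace ℂ Y] [CompleteSpace Y]

omit [CompleteSpace Y] in
theorem sumMap_summable (T : ι → E →L[ℂ] Y) (C : ℝ) (hT : ∀ β, ‖T β‖ ≤ C) (a : A ι E) :
    Summable (fun β => ‖T β (a β)‖) := by
  refine Summable.of_nonneg_of_le (fun _ => norm_nonneg _) (fun β => ?_)
    ((A_summable a).mul_left C)
  exact (T β).le_of_opNorm_le (hT β) _

/-- The map induced on summable families by a bounded family of operators. -/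
noncomputable def sumMap (T : ι → E →L[ℂ] Y) (C : ℝ) (hT : ∀ β, ‖T β‖ ≤ C) : A ι E →L[ℂ] Y :=
  LinearMap.mkContinuous
    { toFun := fun a => ∑' β, T β (a β)
      map_add' := fun a b => by
        rw [← (sumMap_summable T C hT a).of_norm.tsum_add (sumMap_summable T C hT b).of_norm]
        exact tsum_congr (fun β => by simp)
      map_smul' := fun c a => by
        rw [RingHom.id_apply, ← (sumMap_summable T C hT a).of_norm.tsum_const_smul c]
        exact tsum_congr (fun β => by simp) } C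
    (fun a => by
      have h := sumMap_summable T C hT a
      calc ‖∑' β, T β (a β)‖ ≤ ∑' β, ‖T β (a β)‖ := norm_tsum_le_tsum_norm h
        _ ≤ ∑' β, C * ‖a β‖ := h.tsum_le_tsum (fun β => (T β).le_of_opNorm_le (hT β) _)
            ((A_summable a).mul_left C)
        _ = C * ‖a‖ := by rw [tsum_mul_left, A_norm])

theorem sumMap_apply (T : ι → E →L[ℂ] Y) (C : ℝ) (hT : ∀ β, ‖T β‖ ≤ C) (a : A ι E) :
    sumMap T C hT a = ∑' β, T β (a β) := rfl

theorem sumMap_hasSum (T : ι → E →L[ℂ] Y) (C : ℝ) (hT : ∀ β, ‖T β‖ ≤ C) (a : A ι E) :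
    HasSum (fun β => T β (a β)) (sumMap T C hT a) :=
  (sumMap_summable T C hT a).of_norm.hasSum

theorem sumMap_norm_le (T : ι → E →L[ℂ] Y) (C : ℝ) (hT : ∀ β, ‖T β‖ ≤ C) (a : A ι E) :
    ‖sumMap T C hT a‖ ≤ C * ‖a‖ := by
  have h := sumMap_summable T C hT a
  rw [sumMap_apply]
  calc ‖∑' β, T β (a β)‖ ≤ ∑' β, ‖T β (a β)‖ := norm_tsum_le_tsum_norm h
    _ ≤ ∑' β, C * ‖a β‖ := h.tsum_le_tsum (fun β => (T β).le_of_opNorm_le (hT β) _)
        ((A_summable a).mul_left C)
    _ = C * ‖a‖ := by rw [tsum_mul_left, A_norm]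

theorem sumMap_single [DecidableEq ι] (T : ι → E →L[ℂ] Y) (C : ℝ) (hT : ∀ β, ‖T β‖ ≤ C)
    (β : ι) (x : E) : sumMap T C hT (lp.single 1 β x) = T β x := by
  rw [sumMap_apply, tsum_eq_single β]
  · simp
  · intro γ hγ
    rw [lp.single_apply_ne _ _ _ hγ, map_zero]

end sumMap

end Pool.Agent.Work.MP_4bc1d7_an
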