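import Pool.Agent.Work.MP_4bc1d7_an.Scaled

set_option autoImplicit false
set_option linter.unusedSectionVars false

open Filter Topology Metric
open scoped ENNReal

namespace Pool.Agent.Work.MP_4bc1d7_an

variable {n : ℕ} {E : Type*} [NormedAddCommGroup E] [NormedSpace ℂ E] [CompleteSpace E]

theorem mon_differentiable (β : Fin n → ℕ) : Differentiable ℂ (fun t : Fin n → ℂ => mon t β) := by
  unfold mon
  fun_prop

theorem norm_mon_le_of_ball {t : Fin n → ℂ} (ht : t ∈ ball (0 : Fin n → ℂ) 1) (β : Fin n → ℕ) :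
    ‖mon t β‖ ≤ 1 := by
  apply norm_mon_le
  intro i
  rw [mem_ball_zero_iff, pi_norm_lt_iff one_pos] at ht
  exact (ht i).le

/-- Sums of summable families of monomials are holomorphic. -/
theorem series_differentiableOn (a : A (Fin n → ℕ) E) :
    DifferentiableOn ℂ (fun t : Fin n → ℂ => ∑' β, mon t β • a β) (ball 0 (1/2)) := by
  have hd : ∀ β, Differentiable ℂ (fun t : Fin n → ℂ => mon t β • a β) := fun β =>
    (mon_differentiable β).smul_const _
  have hb : ∀ β, ∀ t ∈ ball (0 : Fin n → ℂ) (1/2), ‖fderiv ℂ (fun t => mon t β • a β) t‖ ≤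
      4 * ‖a β‖ := by
    intro β t ht
    have hsub : ball t (1/2) ⊆ ball (0 : Fin n → ℂ) 1 := by
      intro s hs
      rw [mem_ball] at hs ht ⊢
      calc dist s 0 ≤ dist s t + dist t 0 := dist_triangle _ _ _
        _ < 1/2 + 1/2 := add_lt_add hs ht
        _ = 1 := by norm_num
    have h1 : ∀ s ∈ ball (0 : Fin n → ℂ) 1, ‖mon s β • a β‖ ≤ ‖a β‖ := by
      intro s hs
      rw [norm_smul]
      calc ‖mon s β‖ * ‖a β‖ ≤ 1 * ‖a β‖ := by
            gcongr
            exact norm_mon_le_of_ball hs β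
        _ = ‖a β‖ := one_mul _
    have h2 : Set.MapsTo (fun t => mon t β • a β) (ball t (1/2))
        (closedBall (mon t β • a β) (2 * ‖a β‖)) := by
      intro s hs
      rw [mem_closedBall, dist_eq_norm]
      calc ‖mon s β • a β - mon t β • a β‖ ≤ ‖mon s β • a β‖ + ‖mon t β • a β‖ := norm_sub_le _ _
        _ ≤ ‖a β‖ + ‖a β‖ := add_le_add (h1 s (hsub hs)) (h1 t (hsub (mem_ball_self (by norm_num))))
        _ = 2 * ‖a β‖ := by ring
    have h3 := Complex.norm_fderiv_le_div_of_mapsTo_ball ((hd β).differentiableOn) h2 (by norm_num)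
    refine h3.trans (le_of_eq ?_)
    ring
  intro t ht
  have hs : Summable (fun β => 4 * ‖a β‖) := (A_summable a).mul_left 4
  have h0 : Summable (fun β => mon (0 : Fin n → ℂ) β • a β) := by
    refine Summable.of_norm (Summable.of_nonneg_of_le (fun _ => norm_nonneg _) (fun β => ?_)
      (A_summable a))
    rw [norm_smul]
    calc ‖mon (0 : Fin n → ℂ) β‖ * ‖a β‖ ≤ 1 * ‖a β‖ := by
          gcongr
          exact norm_mon_le_of_ball (mem_ball_self one_pos) β
      _ = ‖a β‖ := one_mul _
  have := hasFDerivAt_tsum_of_isPreconnected (𝕜 := ℂ) (u := fun β => 4 * ‖a β‖)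
    (f := fun β (t : Fin n → ℂ) => mon t β • a β)
    (f' := fun β t => fderiv ℂ (fun t => mon t β • a β) t) hs isOpen_ball
    (convex_ball (0 : Fin n → ℂ) (1/2)).isPreconnected
    (fun β t _ => (hd β t).hasFDerivAt) (fun β t ht => hb β t ht)
    (mem_ball_self (by norm_num : (0 : ℝ) < 1/2)) h0 ht
  exact this.differentiableAt.differentiableWithinAt

end Pool.Agent.Work.MP_4bc1d7_an
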