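import Mathlib

set_option autoImplicit false

open Complex MeasureTheory Metric Set
open scoped Real

namespace Pool.Agent.Work.MP_4bc1d7_an

/-- Product of geometric series. -/
theorem hasSum_geom_prod : ∀ {n : ℕ} (x : Fin n → ℂ), (∀ i, ‖x i‖ < 1) →
    HasSum (fun β : Fin n → ℕ => ∏ i, x i ^ β i) (∏ i, (1 - x i)⁻¹) ∧
      Summable (fun β : Fin n → ℕ => ‖∏ i, x i ^ β i‖) := by
  intro n
  induction n with
  | zero =>
    intro x hx
    constructor
    · simp
    · exact Summable.of_finite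
  | succ n ih =>
    intro x hx
    obtain ⟨h1, h2⟩ := ih (fun i => x i.succ) (fun i => hx i.succ)
    have hg := hasSum_geometric_of_norm_lt_one (hx 0)
    have hgn : Summable (fun k : ℕ => ‖x 0 ^ k‖) := by
      have h := summable_geometric_of_lt_one (norm_nonneg (x 0)) (hx 0)
      refine h.congr (fun k => ?_)
      rw [norm_pow]
    have hs : Summable (fun p : ℕ × (Fin n → ℕ) => x 0 ^ p.1 * ∏ i, x i.succ ^ p.2 i) :=
      summable_mul_of_summable_norm (f := fun k : ℕ => x 0 ^ k)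
        (g := fun β : Fin n → ℕ => ∏ i, x i.succ ^ β i) hgn h2
    have key := HasSum.mul (f := fun k : ℕ => x 0 ^ k)
        (g := fun β : Fin n → ℕ => ∏ i, x i.succ ^ β i) hg h1 hs
    have hsn : Summable (fun p : ℕ × (Fin n → ℕ) => ‖x 0 ^ p.1 * ∏ i, x i.succ ^ p.2 i‖) := by
      have := Summable.mul_of_nonneg (f := fun k : ℕ => ‖x 0 ^ k‖)
        (g := fun β : Fin n → ℕ => ‖∏ i, x i.succ ^ β i‖) hgn h2
        (fun _ => norm_nonneg _) (fun _ => norm_nonneg _)
      refine this.congr (fun p => ?_)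
      rw [norm_mul]
    let e : (ℕ × (Fin n → ℕ)) ≃ (Fin (n+1) → ℕ) := Fin.consEquiv (fun _ => ℕ)
    have he : ∀ p : ℕ × (Fin n → ℕ), (∏ i, x i ^ (e p) i) = x 0 ^ p.1 * ∏ i, x i.succ ^ p.2 i := by
      intro p
      rw [Fin.prod_univ_succ]
      simp [e, Fin.consEquiv]
    constructor
    · have hfe : (fun β : Fin (n+1) → ℕ => ∏ i, x i ^ β i) ∘ e =
          fun p : ℕ × (Fin n → ℕ) => x 0 ^ p.1 * ∏ i, x i.succ ^ p.2 i := funext he
      rw [← e.hasSum_iff, Fin.prod_univ_succ, hfe]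
      exact key
    · have hfe : (fun β : Fin (n+1) → ℕ => ‖∏ i, x i ^ β i‖) ∘ e =
          fun p : ℕ × (Fin n → ℕ) => ‖x 0 ^ p.1 * ∏ i, x i.succ ^ p.2 i‖ :=
        funext (fun p => congrArg norm (he p))
      rw [← e.summable_iff, hfe]
      exact hsn

variable {E : Type*} [NormedAddCommGroup E] [NormedSpace ℂ E] [CompleteSpace E]

omit [NormedSpace ℂ E] [CompleteSpace E] in
theorem torusIntegrable_of_continuousOn {n : ℕ} {R : ℝ} (hR : 0 ≤ R)
    (F : (Fin n → ℂ) → E) (hF : ContinuousOn F {ζ | ∀ i, ‖ζ i‖ = R}) :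
    TorusIntegrable F 0 (fun _ => R) := by
  unfold TorusIntegrable
  apply ContinuousOn.integrableOn_compact isCompact_Icc
  refine hF.comp (Continuous.continuousOn ?_) ?_
  · unfold torusMap
    fun_prop
  · intro θ _ i
    simp [torusMap, abs_of_nonneg hR]

/-- Cauchy formula on the torus. -/
theorem cauchy_torus {R R' : ℝ} (hR : 0 < R) (hRR' : R < R') : ∀ {n : ℕ}
    (F : (Fin n → ℂ) → E) (_ : DifferentiableOn ℂ F (ball 0 R')) (z : Fin n → ℂ)
    (_ : ∀ i, ‖z i‖ < R),
    torusIntegral (fun ζ => (∏ i, (ζ i - z i)⁻¹) • F ζ) 0 (fun _ => R)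
      = ((2 * π * I) ^ n : ℂ) • F z := by
  intro n
  induction n with
  | zero =>
    intro F hF z hz
    rw [torusIntegral_dim0]
    simp [Subsingleton.elim z 0]
  | succ n ih =>
    intro F hF z hz
    have hcont : ContinuousOn (fun ζ : Fin (n+1) → ℂ => (∏ i, (ζ i - z i)⁻¹) • F ζ)
        {ζ | ∀ i, ‖ζ i‖ = R} := by
      refine ContinuousOn.smul ?_ ?_
      · refine continuousOn_finsetProd _ (fun i _ => ?_)
        refine ContinuousOn.inv₀ (by fun_prop) ?_
        intro ζ hζ h0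
        have h1 : ζ i = z i := sub_eq_zero.mp h0
        have h2 := hz i
        rw [← h1, hζ i] at h2
        exact lt_irrefl _ h2
      · refine hF.continuousOn.mono ?_
        intro ζ hζ
        rw [mem_ball_zero_iff, pi_norm_lt_iff (hR.trans hRR')]
        intro i
        rw [hζ i]
        exact hRR'
    rw [torusIntegral_succ (torusIntegrable_of_continuousOn hR.le _ hcont)]
    have hmem : ∀ x : ℂ, ‖x‖ < R' → ∀ y : Fin n → ℂ, (∀ i, ‖y i‖ < R') →
        (Fin.cons x y : Fin (n+1) → ℂ) ∈ ball (0 : Fin (n+1) → ℂ) R' := by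
      intro x hx y hy
      rw [mem_ball_zero_iff, pi_norm_lt_iff (hR.trans hRR')]
      intro i
      refine Fin.cases ?_ (fun j => ?_) i
      · simpa using hx
      · simpa using hy j
    have hinner : ∀ x : ℂ, ‖x‖ = R →
        torusIntegral (fun y : Fin n → ℂ => (∏ i, ((Fin.cons x y : Fin (n+1) → ℂ) i - z i)⁻¹) •
          F (Fin.cons x y)) ((0 : Fin (n+1) → ℂ) ∘ Fin.succ) ((fun _ : Fin (n+1) => R) ∘ Fin.succ)
        = (x - z 0)⁻¹ • (((2 * π * I) ^ n : ℂ) • F (Fin.cons x (fun i => z i.succ))) := by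
      intro x hx
      have hF' : DifferentiableOn ℂ (fun y : Fin n → ℂ => F (Fin.cons x y)) (ball 0 R') := by
        refine hF.comp ?_ ?_
        · have : Differentiable ℂ (fun y : Fin n → ℂ => (Fin.cons x y : Fin (n+1) → ℂ)) := by
            rw [differentiable_pi]
            intro i
            refine Fin.cases ?_ (fun j => ?_) i
            · simp
            · simp only [Fin.cons_succ]
              exact differentiable_apply j
          exact this.differentiableOn
        · intro y hy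
          rw [mem_ball_zero_iff, pi_norm_lt_iff (hR.trans hRR')] at hy
          exact hmem x (hx ▸ hRR') y hy
      have h := ih (fun y : Fin n → ℂ => F (Fin.cons x y)) hF' (fun i => z i.succ)
        (fun i => hz i.succ)
      rw [← h, ← torusIntegral_smul]
      have h0 : ((0 : Fin (n+1) → ℂ) ∘ Fin.succ) = (0 : Fin n → ℂ) := rfl
      have hR0 : ((fun _ : Fin (n+1) => R) ∘ Fin.succ) = (fun _ : Fin n => R) := rfl
      rw [h0, hR0]
      congr 1
      funext y
      rw [Fin.prod_univ_succ, smul_smul]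
      simp
    have hcirc : (∮ x in C((0 : Fin (n+1) → ℂ) 0, (fun _ : Fin (n+1) => R) 0),
        torusIntegral (fun y : Fin n → ℂ => (∏ i, ((Fin.cons x y : Fin (n+1) → ℂ) i - z i)⁻¹) •
          F (Fin.cons x y)) ((0 : Fin (n+1) → ℂ) ∘ Fin.succ) ((fun _ : Fin (n+1) => R) ∘ Fin.succ))
        = ∮ x in C(0, R), (x - z 0)⁻¹ • (((2 * π * I) ^ n : ℂ) • F (Fin.cons x (fun i => z i.succ))) := by
      apply circleIntegral.integral_congr hR.le
      intro x hx
      exact hinner x (by simpa using hx)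
    rw [hcirc]
    have hd : DifferentiableOn ℂ (fun x : ℂ => ((2 * π * I) ^ n : ℂ) •
        F (Fin.cons x (fun i => z i.succ))) (closedBall 0 R) := by
      refine DifferentiableOn.const_smul ?_ _
      refine hF.comp ?_ ?_
      · have : Differentiable ℂ (fun x : ℂ => (Fin.cons x (fun i => z i.succ) : Fin (n+1) → ℂ)) := by
          rw [differentiable_pi]
          intro i
          refine Fin.cases ?_ (fun j => ?_) i
          · simp
          · simp
        exact this.differentiableOn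
      · intro x hx
        rw [mem_closedBall_zero_iff] at hx
        exact hmem x (hx.trans_lt hRR') _ (fun i => (hz i.succ).trans hRR')
    rw [hd.circleIntegral_sub_inv_smul (by simpa using hz 0), smul_smul, pow_succ']
    congr 2
    funext i
    refine Fin.cases ?_ (fun j => ?_) i
    · simp
    · simp

/-- Multivariate power series expansion of a holomorphic map with Cauchy estimates. -/
theorem exists_expansion {R R' : ℝ} (hR : 0 < R) (hRR' : R < R') {n : ℕ}
    (F : (Fin n → ℂ) → E) (hF : DifferentiableOn ℂ F (ball 0 R')) :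
    ∃ (a : (Fin n → ℕ) → E) (M : ℝ), 0 ≤ M ∧ (∀ β, ‖a β‖ ≤ M * ∏ i, (R⁻¹) ^ β i) ∧
      ∀ z : Fin n → ℂ, (∀ i, ‖z i‖ < R) → HasSum (fun β => (∏ i, z i ^ β i) • a β) (F z) := by
  set T : Set (Fin n → ℂ) := {ζ | ∀ i, ‖ζ i‖ = R} with hT
  have hTball : T ⊆ ball 0 R' := by
    intro ζ hζ
    rw [mem_ball_zero_iff, pi_norm_lt_iff (hR.trans hRR')]
    intro i
    rw [hζ i]
    exact hRR'
  have hFT : ContinuousOn F T := hF.continuousOn.mono hTball
  have hTcomp : IsCompact T := by
    have : T = Set.pi univ (fun _ : Fin n => sphere (0 : ℂ) R) := by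
      ext ζ
      simp [hT]
    rw [this]
    exact isCompact_univ_pi (fun _ => isCompact_sphere _ _)
  obtain ⟨M, hM⟩ : ∃ M : ℝ, ∀ ζ ∈ T, ‖F ζ‖ ≤ M := hTcomp.exists_bound_of_continuousOn hFT
  have hM0 : 0 ≤ max M 0 := le_max_right _ _
  have hM' : ∀ ζ ∈ T, ‖F ζ‖ ≤ max M 0 := fun ζ hζ => (hM ζ hζ).trans (le_max_left _ _)
  have hmemT : ∀ θ : Fin n → ℝ, torusMap (0 : Fin n → ℂ) (fun _ => R) θ ∈ T := by
    intro θ i
    simp [torusMap, abs_of_pos hR]
  set k : (Fin n → ℕ) → (Fin n → ℂ) → E := fun β ζ => (∏ i, (ζ i)⁻¹ ^ (β i + 1)) • F ζ with hk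
  have hkc : ∀ β, ContinuousOn (k β) T := by
    intro β
    refine ContinuousOn.smul ?_ hFT
    refine continuousOn_finsetProd _ (fun i _ => ?_)
    refine ContinuousOn.pow ?_ _
    refine ContinuousOn.inv₀ (by fun_prop) ?_
    intro ζ hζ h0
    have h2 := hζ i
    rw [h0, norm_zero] at h2
    exact hR.ne h2
  have hkn : ∀ β, ∀ ζ ∈ T, ‖k β ζ‖ ≤ (∏ i : Fin n, (R⁻¹) ^ (β i + 1)) * max M 0 := by
    intro β ζ hζ
    rw [hk]
    simp only [norm_smul, norm_prod, norm_pow, norm_inv]
    have : ∏ i, ‖ζ i‖⁻¹ ^ (β i + 1) = ∏ i : Fin n, (R⁻¹) ^ (β i + 1) :=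
      Finset.prod_congr rfl (fun i _ => by rw [hζ i])
    rw [this]
    exact mul_le_mul_of_nonneg_left (hM' ζ hζ) (by positivity)
  refine ⟨fun β => ((2 * π * I) ^ n : ℂ)⁻¹ • torusIntegral (k β) 0 (fun _ => R), max M 0, hM0, ?_, ?_⟩
  · intro β
    have h1 := norm_torusIntegral_le_of_norm_le_const (f := k β) (c := 0) (R := fun _ => R)
      (C := (∏ i : Fin n, (R⁻¹) ^ (β i + 1)) * max M 0) (fun θ => hkn β _ (hmemT θ))
    rw [norm_smul, norm_inv, norm_pow]
    have h2 : ‖(2 * π * I : ℂ)‖ = 2 * π := by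
      simp [abs_of_pos Real.pi_pos]
    rw [h2]
    have hpi : (0 : ℝ) < (2 * π) ^ n := by positivity
    rw [inv_mul_le_iff₀ hpi]
    refine h1.trans (le_of_eq ?_)
    have h3 : (∏ i : Fin n, (R⁻¹) ^ (β i + 1)) = (∏ i : Fin n, (R⁻¹) ^ β i) * (R⁻¹) ^ n := by
      simp only [pow_succ]
      rw [Finset.prod_mul_distrib]
      simp
    have h4 : (∏ _i : Fin n, |R|) = R ^ n := by simp [abs_of_pos hR]
    rw [h3, h4]
    have h5 : R ^ n * (R⁻¹) ^ n = 1 := by rw [← mul_pow, mul_inv_cancel₀ hR.ne', one_pow]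
    calc (2 * π) ^ n * R ^ n * ((∏ i : Fin n, (R⁻¹) ^ β i) * (R⁻¹) ^ n * max M 0)
        = (2 * π) ^ n * (max M 0 * ∏ i : Fin n, (R⁻¹) ^ β i) * (R ^ n * (R⁻¹) ^ n) := by ring
      _ = (2 * π) ^ n * (max M 0 * ∏ i : Fin n, (R⁻¹) ^ β i) := by rw [h5, mul_one]
  · intro z hz
    have hmain := cauchy_torus hR hRR' F hF z hz
    set S : Set (Fin n → ℝ) := Icc (0 : Fin n → ℝ) (fun _ => 2 * π) with hS
    set G : (Fin n → ℕ) → (Fin n → ℝ) → E := fun β θ =>
      (∏ i, ((R : ℝ) : ℂ) * exp (θ i * I) * I : ℂ) •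
        ((∏ i, z i ^ β i) • k β (torusMap 0 (fun _ => R) θ)) with hG
    have hTI : ∀ β, TorusIntegrable (fun ζ => (∏ i, z i ^ β i) • k β ζ) 0 (fun _ => R) := fun β =>
      torusIntegrable_of_continuousOn hR.le _ ((hkc β).const_smul _)
    have hGint : ∀ β, Integrable (G β) (volume.restrict S) := fun β => (hTI β).function_integrable
    have hx : ∀ i, ‖z i / (R : ℂ)‖ < 1 := by
      intro i
      rw [norm_div, norm_real, Real.norm_of_nonneg hR.le, div_lt_one hR]
      exact hz i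
    have hnormG : ∀ β θ, ‖G β θ‖ ≤ max M 0 * ‖∏ i, (z i / (R : ℂ)) ^ β i‖ := by
      intro β θ
      have h1 := hkn β _ (hmemT θ)
      rw [hG]
      simp only [norm_smul, norm_prod, norm_pow, norm_mul, norm_exp_ofReal_mul_I, norm_I, mul_one,
        norm_real, Real.norm_of_nonneg hR.le, norm_div]
      calc (∏ _i : Fin n, R) * ((∏ i, ‖z i‖ ^ β i) * ‖k β (torusMap 0 (fun _ => R) θ)‖)
          ≤ (∏ _i : Fin n, R) * ((∏ i, ‖z i‖ ^ β i) *
            ((∏ i : Fin n, (R⁻¹) ^ (β i + 1)) * max M 0)) := by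
            gcongr
        _ = max M 0 * ∏ i, (‖z i‖ / R) ^ β i := by
            have h3 : (∏ _i : Fin n, R) * ((∏ i, ‖z i‖ ^ β i) * (∏ i : Fin n, (R⁻¹) ^ (β i + 1)))
                = ∏ i, (‖z i‖ / R) ^ β i := by
              rw [← Finset.prod_mul_distrib, ← Finset.prod_mul_distrib]
              refine Finset.prod_congr rfl (fun i _ => ?_)
              rw [div_pow, pow_succ, inv_pow]
              field_simp
            calc _ = ((∏ _i : Fin n, R) * ((∏ i, ‖z i‖ ^ β i) *
                (∏ i : Fin n, (R⁻¹) ^ (β i + 1)))) * max M 0 := by ring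
              _ = _ := by rw [h3, mul_comm]
    have hsumm : Summable (fun β : Fin n → ℕ => max M 0 * ‖∏ i, (z i / (R : ℂ)) ^ β i‖) :=
      (hasSum_geom_prod _ hx).2.mul_left _
    have hfin : IsFiniteMeasure (volume.restrict S) := by
      constructor
      rw [Measure.restrict_apply_univ]
      exact isCompact_Icc.measure_lt_top
    have hGsum : Summable (fun β => ∫ θ, ‖G β θ‖ ∂(volume.restrict S)) := by
      refine Summable.of_nonneg_of_le (fun β => integral_nonneg (fun _ => norm_nonneg _))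
        (fun β => ?_) (hsumm.mul_left ((volume.restrict S).real univ))
      have := integral_mono (hGint β).norm (integrable_const (max M 0 * ‖∏ i, (z i / (R : ℂ)) ^ β i‖))
        (fun θ => hnormG β θ)
      refine this.trans (le_of_eq ?_)
      rw [integral_const, smul_eq_mul]
    have hsumint := hasSum_integral_of_summable_integral_norm hGint hGsum
    have htsum : ∀ θ, ∑' β, G β θ = (∏ i, ((R : ℝ) : ℂ) * exp (θ i * I) * I : ℂ) •
        ((∏ i, (torusMap 0 (fun _ => R) θ i - z i)⁻¹) • F (torusMap 0 (fun _ => R) θ)) := by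
      intro θ
      set ζ := torusMap (0 : Fin n → ℂ) (fun _ => R) θ with hζ
      have hζR : ∀ i, ‖ζ i‖ = R := hmemT θ
      have hζ0 : ∀ i, ζ i ≠ 0 := by
        intro i h0
        have := hζR i
        rw [h0, norm_zero] at this
        exact hR.ne this
      have hxx : ∀ i, ‖z i / ζ i‖ < 1 := by
        intro i
        rw [norm_div, hζR i, div_lt_one hR]
        exact hz i
      have h1 := (hasSum_geom_prod _ hxx).1
      have h2 : HasSum (fun β : Fin n → ℕ => (∏ i, (z i / ζ i) ^ β i) * (∏ i, (ζ i)⁻¹))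
          ((∏ i, (1 - z i / ζ i)⁻¹) * (∏ i, (ζ i)⁻¹)) := h1.mul_right _
      have h3 : (∏ i, (1 - z i / ζ i)⁻¹) * (∏ i, (ζ i)⁻¹) = ∏ i, (ζ i - z i)⁻¹ := by
        rw [← Finset.prod_mul_distrib]
        refine Finset.prod_congr rfl (fun i _ => ?_)
        rw [← mul_inv, sub_mul, one_mul, div_mul_cancel₀ _ (hζ0 i)]
      rw [h3] at h2
      have h4 : HasSum (fun β : Fin n → ℕ => (∏ i, ((R : ℝ) : ℂ) * exp (θ i * I) * I : ℂ) •
          (((∏ i, (z i / ζ i) ^ β i) * (∏ i, (ζ i)⁻¹)) • F ζ))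
          ((∏ i, ((R : ℝ) : ℂ) * exp (θ i * I) * I : ℂ) • ((∏ i, (ζ i - z i)⁻¹) • F ζ)) :=
        (h2.smul_const _).const_smul _
      rw [← h4.tsum_eq]
      refine tsum_congr (fun β => ?_)
      rw [hG]
      simp only
      rw [hk]
      simp only
      rw [smul_smul (∏ i, z i ^ β i)]
      congr 2
      rw [← Finset.prod_mul_distrib, ← Finset.prod_mul_distrib]
      refine Finset.prod_congr rfl (fun i _ => ?_)
      rw [div_pow, pow_succ, inv_pow, ← hζ]
      field_simp
    have hint2 : (∫ θ, (∑' β, G β θ) ∂(volume.restrict S)) = ((2 * π * I) ^ n : ℂ) • F z := by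
      rw [← hmain]
      simp only [htsum]
      rfl
    rw [hint2] at hsumint
    have hne : ((2 * π * I) ^ n : ℂ) ≠ 0 := by
      apply pow_ne_zero
      simp [Real.pi_ne_zero, I_ne_zero]
    have hfinal := hsumint.const_smul (((2 * π * I) ^ n : ℂ)⁻¹)
    rw [smul_smul, inv_mul_cancel₀ hne, one_smul] at hfinal
    have heq : (fun β => ((2 * π * I) ^ n : ℂ)⁻¹ • ∫ θ, G β θ ∂(volume.restrict S)) =
        fun β => (∏ i, z i ^ β i) • (((2 * π * I) ^ n : ℂ)⁻¹ •
          torusIntegral (k β) 0 (fun _ => R)) := by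
      funext β
      rw [smul_comm]
      congr 1
      rw [← torusIntegral_smul]
      rfl
    rw [← heq]
    exact hfinal

end Pool.Agent.Work.MP_4bc1d7_an
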