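import Pool.Agent.Work.MP_4bc1d7_an.Scaled

set_option autoImplicit false
set_option linter.unusedSectionVars false

open Filter Topology
open scoped ENNReal

namespace Pool.Agent.Work.MP_4bc1d7_an

theorem solve_scaled {n : ℕ} (Z : Set (P n)) (U : Set (Fin n → ℕ))
    (c : (Fin n → ℕ) → A (Fin n → ℕ) ℂ) (hc : ∀ β ∈ U, ‖c β‖ ≤ 1/2)
    (hev : ∀ β ∈ U, ∀ t ∈ Z, ev t (c β) = mon t.1 β)
    (huniq : ∀ c : A (Fin n → ℕ) ℂ, (∀ β ∈ U, c β = 0) → (∀ t ∈ Z, ev t c = 0) → ∀ β, c β = 0)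
    {E0 E1 E2 : Type*} [NormedAddCommGroup E0] [NormedSpace ℂ E0] [CompleteSpace E0]
    [NormedAddCommGroup E1] [NormedSpace ℂ E1] [CompleteSpace E1]
    [NormedAddCommGroup E2] [NormedSpace ℂ E2] [CompleteSpace E2]
    (u0 : E1 →L[ℂ] E0) (w0 : E2 →L[ℂ] E1)
    (v : (Fin n → ℕ) → (E1 →L[ℂ] E0)) (hv : Summable (fun γ => ‖v γ‖))
    (ω : (Fin n → ℕ) → (E2 →L[ℂ] E1)) (hω : Summable (fun γ => ‖ω γ‖))
    (C1 C2 ε : ℝ) (hC1 : 0 ≤ C1) (hC2 : 0 ≤ C2) (hε : 0 ≤ ε)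
    (h1 : ∀ x : E1, ∃ x' : E1, u0 x' = u0 x ∧ ‖x'‖ ≤ C1 * ‖u0 x‖)
    (h2 : ∀ x : E1, u0 x = 0 → ∃ y : E2, w0 y = x ∧ ‖y‖ ≤ C2 * ‖x‖)
    (hvε : ∑' γ, ‖v γ‖ ≤ ε) (hωε : ∑' γ, ‖ω γ‖ ≤ ε)
    (hε1 : ε * C1 ≤ 1/8) (hε2 : ε * C2 ≤ 1/10)
    (hcomp : ∀ t ∈ Z, ∀ y : E2, (u0 + opEv t v) ((w0 + opEv t ω) y) = 0)
    (f : A (Fin n → ℕ) E1) (hf : ∀ t ∈ Z, (u0 + opEv t v) (ev t f) = 0) :
    ∃ g : A (Fin n → ℕ) E2, ∀ t ∈ Z, ev t f = (w0 + opEv t ω) (ev t g) := by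
  obtain ⟨f₀, -, hf₀U, hf₀⟩ := division Z U c hc hev f
  have key := iterate_solve (A := A (Fin n → ℕ) E1) (B := A (Fin n → ℕ) E2) (τ := Z) (Y := E1)
    (fun t => ev t.1) (fun t => (w0 + opEv t.1 ω) ∘L ev t.1)
    {f | (∀ β ∈ U, f β = 0) ∧ ∀ t ∈ Z, (u0 + opEv t v) (ev t f) = 0}
    (C2 * (5/4)) (by positivity) ?_ f₀ ⟨hf₀U, fun t ht => by rw [← hf₀ t ht]; exact hf t ht⟩
  · obtain ⟨g, -, hg⟩ := key
    refine ⟨g, fun t ht => ?_⟩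
    rw [hf₀ t ht]
    exact hg ⟨t, ht⟩
  · rintro a ⟨haU, haZ⟩
    -- the defect of u0 a
    obtain ⟨ψ, hψn, hψU, hψ⟩ := division Z U c hc hev (mulMap v hv a)
    have hsum0 : ∀ β, (mapA u0 a + ψ : A (Fin n → ℕ) E0) β = 0 := by
      apply uniq_vec Z U huniq
      · intro β hβ
        change u0 (a β) + ψ β = 0
        rw [haU β hβ, hψU β hβ, map_zero, add_zero]
      · intro t ht
        rw [map_add, ev_mapA, ← hψ t ht, ev_mulMap]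
        have := haZ t ht
        rwa [add_apply] at this
    have hu0 : ∀ β, u0 (a β) = - ψ β := fun β => eq_neg_of_add_eq_zero_left (hsum0 β)
    have hψn' : ‖ψ‖ ≤ 2 * ε * ‖a‖ := by
      calc ‖ψ‖ ≤ 2 * ‖mulMap v hv a‖ := hψn
        _ ≤ 2 * (ε * ‖a‖) := by
            gcongr
            exact (mulMap_norm_le v hv a).trans (by gcongr)
        _ = 2 * ε * ‖a‖ := by ring
    choose x' hx'1 hx'2 using fun β => h1 (a β)
    have hx'3 : ∀ β, ‖x' β‖ ≤ C1 * ‖ψ β‖ := by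
      intro β
      refine (hx'2 β).trans (le_of_eq ?_)
      rw [hu0 β, norm_neg]
    have hx's : Summable (fun β => ‖x' β‖) :=
      Summable.of_nonneg_of_le (fun _ => norm_nonneg _) hx'3 ((A_summable ψ).mul_left C1)
    let a1 : A (Fin n → ℕ) E1 := Amk x' hx's
    have ha1n : ‖a1‖ ≤ (1/4) * ‖a‖ := by
      calc ‖a1‖ ≤ ∑' β, C1 * ‖ψ β‖ := A_norm_le ((A_summable ψ).mul_left C1) hx'3
        _ = C1 * ‖ψ‖ := by rw [tsum_mul_left, A_norm]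
        _ ≤ C1 * (2 * ε * ‖a‖) := by gcongr
        _ = 2 * (ε * C1) * ‖a‖ := by ring
        _ ≤ 2 * (1/8) * ‖a‖ := by gcongr
        _ = (1/4) * ‖a‖ := by ring
    have ha1U : ∀ β ∈ U, a1 β = 0 := by
      intro β hβ
      change x' β = 0
      have := hx'3 β
      rw [hψU β hβ, norm_zero, mul_zero] at this
      exact norm_le_zero_iff.mp this
    have hdiff : ∀ β, u0 (a β - x' β) = 0 := by
      intro β
      rw [map_sub, hx'1 β, sub_self]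
    choose y hy1 hy2 using fun β => h2 (a β - x' β) (hdiff β)
    have hy3 : ∀ β, ‖y β‖ ≤ C2 * ‖(a - a1) β‖ := hy2
    have hys : Summable (fun β => ‖y β‖) :=
      Summable.of_nonneg_of_le (fun _ => norm_nonneg _) hy3 ((A_summable (a - a1)).mul_left C2)
    let g : A (Fin n → ℕ) E2 := Amk y hys
    have haa1 : ‖a - a1‖ ≤ (5/4) * ‖a‖ := by
      calc ‖a - a1‖ ≤ ‖a‖ + ‖a1‖ := norm_sub_le _ _
        _ ≤ ‖a‖ + (1/4) * ‖a‖ := by gcongr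
        _ = (5/4) * ‖a‖ := by ring
    have hgn : ‖g‖ ≤ C2 * (5/4) * ‖a‖ := by
      calc ‖g‖ ≤ ∑' β, C2 * ‖(a - a1) β‖ := A_norm_le ((A_summable (a - a1)).mul_left C2) hy3
        _ = C2 * ‖a - a1‖ := by rw [tsum_mul_left, A_norm]
        _ ≤ C2 * ((5/4) * ‖a‖) := by gcongr
        _ = C2 * (5/4) * ‖a‖ := by ring
    have hw0g : mapA w0 g = a - a1 := by
      apply lp.ext
      funext β
      exact hy1 β
    obtain ⟨ψ2, hψ2n, hψ2U, hψ2⟩ := division Z U c hc hev (mulMap ω hω g)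
    have hψ2n' : ‖ψ2‖ ≤ (1/4) * ‖a‖ := by
      calc ‖ψ2‖ ≤ 2 * ‖mulMap ω hω g‖ := hψ2n
        _ ≤ 2 * (ε * (C2 * (5/4) * ‖a‖)) := by
            gcongr
            exact (mulMap_norm_le ω hω g).trans (by gcongr)
        _ = (5/2) * (ε * C2) * ‖a‖ := by ring
        _ ≤ (5/2) * (1/10) * ‖a‖ := by gcongr
        _ = (1/4) * ‖a‖ := by ring
    have hrel : ∀ t ∈ Z, ev t a = (w0 + opEv t ω) (ev t g) + ev t (a1 - ψ2) := by
      intro t ht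
      rw [add_apply, ← ev_mapA, hw0g, map_sub, map_sub, ← hψ2 t ht, ev_mulMap]
      abel
    refine ⟨g, a1 - ψ2, ⟨?_, ?_⟩, hgn, ?_, ?_⟩
    · intro β hβ
      change a1 β - ψ2 β = 0
      rw [ha1U β hβ, hψ2U β hβ, sub_zero]
    · intro t ht
      have e : ev t (a1 - ψ2) = ev t a - (w0 + opEv t ω) (ev t g) := by
        rw [hrel t ht]; abel
      rw [e, map_sub, haZ t ht, hcomp t ht, sub_zero]
    · calc ‖a1 - ψ2‖ ≤ ‖a1‖ + ‖ψ2‖ := norm_sub_le _ _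
        _ ≤ (1/4) * ‖a‖ + (1/4) * ‖a‖ := by gcongr
        _ = (1/2) * ‖a‖ := by ring
    · intro t
      exact hrel t.1 t.2

end Pool.Agent.Work.MP_4bc1d7_an
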