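import Pool.Agent.Work.MP_4bc1d7_an.Weights
import Pool.Agent.Work.MP_4bc1d7_an.Diff
import Pool.Agent.Work.MP_4bc1d7_an.Solve
import Pool.Agent.Work.MP_4bc1d7_an.PolyExp

set_option autoImplicit false
set_option linter.unusedSectionVars false

open Filter Topology Metric
open scoped ENNReal

namespace Pool.Agent.Work.MP_4bc1d7_an

/-- Leading exponents of series vanishing on `X` near the origin. -/
def LExp {n : ℕ} (X : Set (Fin n → ℂ)) : Set (Fin n → ℕ) :=
  {β | ∃ (g : (Fin n → ℕ) → ℂ) (s : ℕ), Summable (fun γ => ‖g γ‖ * wt s γ) ∧ g β = 1 ∧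
    (∀ γ, NN γ < NN β → g γ = 0) ∧
    ∀ z ∈ X, (∀ i : Fin n, ‖z i‖ ≤ rad s i) → ∑' γ, mon z γ * g γ = 0}

theorem mon_zero_left {n : ℕ} (β : Fin n → ℕ) : mon (0 : Fin n → ℂ) β = if β = 0 then 1 else 0 := by
  split_ifs with h
  · rw [h, mon_zero]
  · have : ∃ i, β i ≠ 0 := by
      by_contra hc
      push Not at hc
      exact h (funext hc)
    obtain ⟨i, hi⟩ := this
    unfold mon
    apply Finset.prod_eq_zero (Finset.mem_univ i)
    simp [hi]

theorem scl_norm_le {n : ℕ} (s : ℕ) (t : P n) (i : Fin n) : ‖scl s t.1 i‖ ≤ rad s i := by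
  unfold scl
  rw [norm_mul, Complex.norm_real, Real.norm_of_nonneg (rad_pos s i).le]
  calc rad s i * ‖t.1 i‖ ≤ rad s i * 1 := mul_le_mul_of_nonneg_left (t.2 i) (rad_pos s i).le
    _ = rad s i := mul_one _

section expansions

variable {n : ℕ} {E : Type*} [NormedAddCommGroup E] [NormedSpace ℂ E] [CompleteSpace E]

theorem exp_summable (a : (Fin n → ℕ) → E) (M R : ℝ) (hM : 0 ≤ M) (hR : 0 < R)
    (ha : ∀ β, ‖a β‖ ≤ M * ∏ i, (R⁻¹) ^ β i) (s : ℕ) (hs : (1/2 : ℝ)^s < R) :
    Summable (fun β => ‖a β‖ * wt s β) := by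
  have hx : ∀ i : Fin n, ‖((rad s i / R : ℝ) : ℂ)‖ < 1 := by
    intro i
    rw [Complex.norm_real, Real.norm_of_nonneg (div_nonneg (rad_pos s i).le hR.le), div_lt_one hR]
    exact (rad_le_half s i).trans_lt hs
  have h := (hasSum_geom_prod (fun i : Fin n => ((rad s i / R : ℝ) : ℂ)) hx).2.mul_left M
  refine Summable.of_nonneg_of_le (fun β => mul_nonneg (norm_nonneg _) (wt_pos s β).le)
    (fun β => ?_) h
  calc ‖a β‖ * wt s β ≤ (M * ∏ i, (R⁻¹) ^ β i) * wt s β :=
        mul_le_mul_of_nonneg_right (ha β) (wt_pos s β).le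
    _ = M * ‖∏ i : Fin n, ((rad s i / R : ℝ) : ℂ) ^ β i‖ := by
        rw [wt_eq, mul_assoc, ← Finset.prod_mul_distrib, norm_prod]
        congr 1
        refine Finset.prod_congr rfl (fun i _ => ?_)
        rw [norm_pow, Complex.norm_real,
          Real.norm_of_nonneg (div_nonneg (rad_pos s i).le hR.le), div_pow, inv_pow]
        field_simp

/-- Scaled coefficients. -/
noncomputable def sc (s : ℕ) (a : (Fin n → ℕ) → E) : (Fin n → ℕ) → E := fun β => (wt s β : ℂ) • a β

theorem sc_norm (s : ℕ) (a : (Fin n → ℕ) → E) (β : Fin n → ℕ) : ‖sc s a β‖ = ‖a β‖ * wt s β := by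
  unfold sc
  rw [norm_smul, Complex.norm_real, Real.norm_of_nonneg (wt_pos s β).le, mul_comm]

theorem sc_mon (s : ℕ) (a : (Fin n → ℕ) → E) (t : Fin n → ℂ) (β : Fin n → ℕ) :
    mon t β • sc s a β = mon (scl s t) β • a β := by
  unfold sc
  rw [mon_scl, smul_smul, mul_comm]

theorem ev_sc (s : ℕ) (a : (Fin n → ℕ) → E) (h : Summable (fun β => ‖a β‖ * wt s β)) (t : P n)
    (F : E) (hF : HasSum (fun β => mon (scl s t.1) β • a β) F) :
    ev t (Amk (sc s a) (by simpa only [sc_norm] using h)) = F := by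
  have h1 := ev_hasSum t (Amk (sc s a) (by simpa only [sc_norm] using h))
  refine h1.unique ?_
  have e : (fun β => mon t.1 β • (Amk (sc s a) (by simpa only [sc_norm] using h) : A (Fin n → ℕ) E) β)
      = fun β => mon (scl s t.1) β • a β := by
    funext β
    rw [Amk_apply, sc_mon]
  rw [e]
  exact hF

/-- Non constant part of the scaled coefficients. -/
noncomputable def sc' (s : ℕ) (a : (Fin n → ℕ) → E) : (Fin n → ℕ) → E :=
  fun β => if β = 0 then 0 else sc s a β

end expansions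

section ops

variable {n : ℕ} {E F : Type*} [NormedAddCommGroup E] [NormedSpace ℂ E] [CompleteSpace E]
  [NormedAddCommGroup F] [NormedSpace ℂ F] [CompleteSpace F]

theorem sc'_small (a : (Fin n → ℕ) → E) (s0 : ℕ) (h : Summable (fun β => ‖a β‖ * wt s0 β))
    (δ : ℝ) (hδ : 0 < δ) : ∃ S, ∀ s ≥ S, Summable (fun γ => ‖sc' s a γ‖) ∧
      ∑' γ, ‖sc' s a γ‖ ≤ δ := by
  obtain ⟨S, hS⟩ := tail_small (fun γ => ‖a γ‖) (fun _ => norm_nonneg _) s0 h 0
    (fun γ hγ => by
      rw [NN_zero] at hγ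
      exact absurd (NN_pos γ) (by omega)) δ hδ
  refine ⟨S, fun s hs => ?_⟩
  have e : (fun γ => ‖sc' s a γ‖) = fun γ : Fin n → ℕ =>
      (if γ = 0 then 0 else ‖a γ‖ * ((NN (0 : Fin n → ℕ) : ℝ) / NN γ) ^ s) := by
    funext γ
    unfold sc'
    split_ifs
    · exact norm_zero
    · rw [sc_norm, NN_zero, wt]
      simp
  rw [e]
  exact ⟨(hS s hs).1, (hS s hs).2.le⟩

theorem opEv_sc' (s : ℕ) (a : (Fin n → ℕ) → (E →L[ℂ] F)) (t : P n)
    (h : Summable (fun γ => ‖sc' s a γ‖)) (U : E →L[ℂ] F)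
    (hU : HasSum (fun β => mon (scl s t.1) β • a β) U) :
    a 0 + opEv t (sc' s a) = U := by
  have h1 : HasSum (fun γ => mon t.1 γ • sc' s a γ) (opEv t (sc' s a)) :=
    (opEv_summable t _ h).of_norm.hasSum
  have h2 : HasSum (fun γ : Fin n → ℕ => if γ = 0 then a 0 else 0) (a 0) := hasSum_ite_eq 0 (a 0)
  have h3 := h2.add h1
  refine h3.unique ?_
  have e : (fun γ : Fin n → ℕ => (if γ = 0 then a 0 else 0) + mon t.1 γ • sc' s a γ) =
      fun β => mon (scl s t.1) β • a β := by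
    funext γ
    unfold sc'
    split_ifs with hγ
    · rw [hγ, smul_zero, add_zero, mon_zero, one_smul]
    · rw [zero_add, sc_mon]
  rw [e]
  exact hU

end ops

section main

open Classical in
/-- Uniqueness of normal forms. -/
theorem uniq_scaled {n : ℕ} (X : Set (Fin n → ℂ)) (U : Set (Fin n → ℕ)) (hU : LExp X ⊆ U) (s : ℕ)
    (c : A (Fin n → ℕ) ℂ) (hc : ∀ β ∈ U, c β = 0)
    (hev : ∀ t ∈ {t : P n | scl s t.1 ∈ X}, ev t c = 0) : ∀ β, c β = 0 := by
  by_contra hne
  push Not at hne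
  -- choose minimal weight
  have hex : ∃ N, ∃ β, NN β = N ∧ c β ≠ 0 := by
    obtain ⟨β, hβ⟩ := hne
    exact ⟨NN β, β, rfl, hβ⟩
  obtain ⟨β, hβN, hβ⟩ := Nat.find_spec hex
  have hmin : ∀ γ, NN γ < NN β → c γ = 0 := by
    intro γ hγ
    by_contra h
    rw [hβN] at hγ
    exact Nat.find_min hex hγ ⟨γ, rfl, h⟩
  apply hβ
  apply hc
  apply hU
  have hw : ∀ γ : Fin n → ℕ, (wt s γ : ℂ) ≠ 0 := fun γ => by
    exact_mod_cast (wt_pos s γ).ne'
  refine ⟨fun γ => (wt s β : ℂ) * (c β)⁻¹ * ((wt s γ : ℂ)⁻¹ * c γ), s, ?_, ?_, ?_, ?_⟩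
  · have h := (A_summable c).mul_left (wt s β * ‖c β‖⁻¹)
    refine h.congr (fun γ => ?_)
    rw [norm_mul, norm_mul, norm_mul, norm_inv, norm_inv, Complex.norm_real, Complex.norm_real,
      Real.norm_of_nonneg (wt_pos s β).le, Real.norm_of_nonneg (wt_pos s γ).le]
    have := (wt_pos s γ).ne'
    field_simp
  · have := hw β
    field_simp
  · intro γ hγ
    change (wt s β : ℂ) * (c β)⁻¹ * ((wt s γ : ℂ)⁻¹ * c γ) = 0
    rw [hmin γ hγ, mul_zero, mul_zero]
  · intro z hz hzr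
    have hr : ∀ i : Fin n, (rad s i : ℂ) ≠ 0 := fun i => by exact_mod_cast (rad_pos s i).ne'
    let t : P n := ⟨fun i => z i / (rad s i : ℂ), fun i => by
      rw [norm_div, Complex.norm_real, Real.norm_of_nonneg (rad_pos s i).le,
        div_le_one (rad_pos s i)]
      exact hzr i⟩
    have hzt : scl s t.1 = z := by
      funext i
      change (rad s i : ℂ) * (z i / (rad s i : ℂ)) = z i
      rw [mul_div_cancel₀ _ (hr i)]
    have h1 := hev t (by
      change scl s t.1 ∈ X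
      rw [hzt]
      exact hz)
    have h2 := (ev_hasSum t c).mul_left ((wt s β : ℂ) * (c β)⁻¹)
    rw [h1, mul_zero] at h2
    rw [← h2.tsum_eq]
    refine tsum_congr (fun γ => ?_)
    rw [← hzt, mon_scl, smul_eq_mul]
    have := hw γ
    field_simp

open Classical in
/-- Reduction of a non-standard monomial. -/
theorem div_data {n : ℕ} (X : Set (Fin n → ℂ)) (e : Fin n → ℕ) (g : (Fin n → ℕ) → ℂ) (s0 s : ℕ)
    (hge : g e = 1) (hvan : ∀ z ∈ X, (∀ i : Fin n, ‖z i‖ ≤ rad s0 i) → ∑' γ, mon z γ * g γ = 0)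
    (hss : s0 ≤ s) (hsum : Summable (fun γ => ‖g γ‖ * wt s0 γ))
    (ht1 : Summable (fun γ : Fin n → ℕ => if γ = e then 0 else ‖g γ‖ * ((NN e : ℝ) / NN γ) ^ s))
    (ht2 : ∑' γ : Fin n → ℕ, (if γ = e then 0 else ‖g γ‖ * ((NN e : ℝ) / NN γ) ^ s) < 1/2)
    (β : Fin n → ℕ) (hβ : e ≤ β) :
    ∃ c : A (Fin n → ℕ) ℂ, ‖c‖ ≤ 1/2 ∧ ∀ t ∈ {t : P n | scl s t.1 ∈ X}, ev t c = mon t.1 β := by
  have hw : ∀ γ : Fin n → ℕ, (wt s γ : ℂ) ≠ 0 := fun γ => by
    exact_mod_cast (wt_pos s γ).ne'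
  have hratio : ∀ γ : Fin n → ℕ, ((NN e : ℝ) / NN γ) ^ s = wt s γ / wt s e := by
    intro γ
    have h1 : (0 : ℝ) < NN e := by exact_mod_cast NN_pos e
    have h2 : (0 : ℝ) < NN γ := by exact_mod_cast NN_pos γ
    unfold wt
    rw [div_pow, inv_pow, inv_pow]
    field_simp
  let v : (Fin n → ℕ) → (ℂ →L[ℂ] ℂ) := fun γ =>
    (if γ = e then 0 else -((wt s γ : ℂ) / (wt s e : ℂ) * g γ)) • ContinuousLinearMap.id ℂ ℂ
  have hvn : ∀ γ, ‖v γ‖ = if γ = e then 0 else ‖g γ‖ * ((NN e : ℝ) / NN γ) ^ s := by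
    intro γ
    simp only [v]
    rw [norm_smul, ContinuousLinearMap.norm_id, mul_one]
    split_ifs
    · exact norm_zero
    · rw [norm_neg, norm_mul, norm_div, Complex.norm_real, Complex.norm_real,
        Real.norm_of_nonneg (wt_pos s γ).le, Real.norm_of_nonneg (wt_pos s e).le, hratio, mul_comm]
  have hvs : Summable (fun γ => ‖v γ‖) := by
    simp only [hvn]
    exact ht1
  refine ⟨mulT v (β - e) 1, ?_, ?_⟩
  · calc ‖mulT v (β - e) 1‖ ≤ ‖mulT v (β - e)‖ * ‖(1 : ℂ)‖ := (mulT v (β - e)).le_opNorm 1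
      _ ≤ (∑' γ, ‖v γ‖) * 1 := by
          rw [norm_one]
          exact mul_le_mul_of_nonneg_right (mulT_norm_le v hvs _) zero_le_one
      _ = ∑' γ : Fin n → ℕ, (if γ = e then 0 else ‖g γ‖ * ((NN e : ℝ) / NN γ) ^ s) := by
          rw [mul_one]
          exact tsum_congr hvn
      _ ≤ 1/2 := ht2.le
  · intro t ht
    rw [ev_mulT t v hvs]
    have hop : opEv t v 1 = mon t.1 e := by
      have h1 := opEv_hasSum t v hvs 1
      have hz : Summable (fun γ => mon (scl s t.1) γ * g γ) := by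
        refine Summable.of_norm (Summable.of_nonneg_of_le (fun _ => norm_nonneg _) (fun γ => ?_)
          hsum)
        rw [mon_scl, norm_mul, norm_mul, Complex.norm_real, Real.norm_of_nonneg (wt_pos s γ).le]
        calc wt s γ * ‖mon t.1 γ‖ * ‖g γ‖ ≤ wt s0 γ * 1 * ‖g γ‖ := by
              have := wt_pos s0 γ
              gcongr
              · exact wt_antitone hss γ
              · exact norm_mon_le t.2 γ
          _ = ‖g γ‖ * wt s0 γ := by ring
      have hz0 : HasSum (fun γ => mon (scl s t.1) γ * g γ) 0 := by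
        have := hvan (scl s t.1) ht (fun i => (scl_norm_le s t i).trans (rad_antitone hss i))
        rw [← this]
        exact hz.hasSum
      have h2 := hz0.mul_left (-((wt s e : ℂ)⁻¹))
      rw [mul_zero] at h2
      have h3 : HasSum (fun γ : Fin n → ℕ => if γ = e then mon t.1 e else 0) (mon t.1 e) :=
        hasSum_ite_eq e (mon t.1 e)
      have h4 := h2.add h3
      rw [zero_add] at h4
      refine h1.unique ?_
      have ee : (fun γ => mon t.1 γ • (v γ) 1) = fun γ : Fin n → ℕ =>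
          -((wt s e : ℂ)⁻¹) * (mon (scl s t.1) γ * g γ) + (if γ = e then mon t.1 e else 0) := by
        funext γ
        simp only [v]
        rw [smul_apply, ContinuousLinearMap.id_apply, mon_scl]
        split_ifs with hγ
        · rw [hγ, hge]
          have := hw e
          simp only [smul_eq_mul]
          field_simp
          ring
        · simp only [smul_eq_mul]
          have := hw e
          field_simp
          ring
      rw [ee]
      exact h4
    rw [hop, smul_eq_mul, ← mon_add, tsub_add_cancel_of_le hβ]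

end main

end Pool.Agent.Work.MP_4bc1d7_an
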