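import Pool.Agent.Work.MP_4bc1d7_an.Core

set_option autoImplicit false
set_option linter.unusedSectionVars false

open Filter Topology
open scoped ENNReal

namespace Pool.Agent.Work.MP_4bc1d7_an

/-- Monomials. -/
def mon {n : ℕ} (t : Fin n → ℂ) (β : Fin n → ℕ) : ℂ := ∏ i, t i ^ β i

theorem mon_add {n : ℕ} (t : Fin n → ℂ) (β γ : Fin n → ℕ) :
    mon t (β + γ) = mon t β * mon t γ := by
  unfold mon
  rw [← Finset.prod_mul_distrib]
  exact Finset.prod_congr rfl (fun i _ => by rw [Pi.add_apply, pow_add])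

theorem mon_zero {n : ℕ} (t : Fin n → ℂ) : mon t 0 = 1 := by
  simp [mon]

theorem norm_mon_le {n : ℕ} {t : Fin n → ℂ} (ht : ∀ i, ‖t i‖ ≤ 1) (β : Fin n → ℕ) :
    ‖mon t β‖ ≤ 1 := by
  unfold mon
  rw [norm_prod]
  apply Finset.prod_le_one (fun i _ => norm_nonneg _)
  intro i _
  rw [norm_pow]
  exact pow_le_one₀ (norm_nonneg _) (ht i)

/-- Closed unit polydisc. -/
def P (n : ℕ) := {t : Fin n → ℂ // ∀ i, ‖t i‖ ≤ 1}

section ev

variable {n : ℕ} {E F : Type*} [NormedAddCommGroup E] [NormedSpace ℂ E] [CompleteSpace E]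
  [NormedAddCommGroup F] [NormedSpace ℂ F] [CompleteSpace F]

omit [CompleteSpace E] in
theorem ev_bound (t : P n) (β : Fin n → ℕ) :
    ‖mon t.1 β • ContinuousLinearMap.id ℂ E‖ ≤ 1 := by
  rw [norm_smul]
  calc ‖mon t.1 β‖ * ‖ContinuousLinearMap.id ℂ E‖ ≤ 1 * 1 := by
        gcongr
        · exact norm_mon_le t.2 β
        · exact ContinuousLinearMap.norm_id_le
    _ = 1 := one_mul 1

/-- Evaluation at a point of the closed unit polydisc. -/
noncomputable def ev (t : P n) : A (Fin n → ℕ) E →L[ℂ] E :=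
  sumMap (fun β => mon t.1 β • ContinuousLinearMap.id ℂ E) 1 (ev_bound t)

theorem ev_hasSum (t : P n) (a : A (Fin n → ℕ) E) :
    HasSum (fun β => mon t.1 β • a β) (ev t a) :=
  sumMap_hasSum (fun β => mon t.1 β • ContinuousLinearMap.id ℂ E) 1 (ev_bound t) a

theorem ev_single (t : P n) (β : Fin n → ℕ) (x : E) :
    ev t (lp.single 1 β x) = mon t.1 β • x := by
  unfold ev
  rw [sumMap_single]
  rfl

omit [CompleteSpace E] [CompleteSpace F] in
theorem opEv_summable (t : P n) (v : (Fin n → ℕ) → (E →L[ℂ] F)) (hv : Summable (fun γ => ‖v γ‖)) :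
    Summable (fun γ => ‖mon t.1 γ • v γ‖) := by
  refine Summable.of_nonneg_of_le (fun _ => norm_nonneg _) (fun γ => ?_) hv
  rw [norm_smul]
  calc ‖mon t.1 γ‖ * ‖v γ‖ ≤ 1 * ‖v γ‖ := by
        gcongr
        exact norm_mon_le t.2 γ
    _ = ‖v γ‖ := one_mul _

/-- Evaluation of an operator valued series. -/
noncomputable def opEv (t : P n) (v : (Fin n → ℕ) → (E →L[ℂ] F)) : E →L[ℂ] F :=
  ∑' γ, mon t.1 γ • v γ

omit [CompleteSpace E] [CompleteSpace F] in
theorem mulT_summable (v : (Fin n → ℕ) → (E →L[ℂ] F)) (hv : Summable (fun γ => ‖v γ‖))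
    (β : Fin n → ℕ) :
    Summable (fun γ => ‖(lp.singleContinuousLinearMap ℂ (fun _ : Fin n → ℕ => F) 1 (γ + β)) ∘L
      v γ‖) := by
  refine Summable.of_nonneg_of_le (fun _ => norm_nonneg _) (fun γ => ?_) hv
  refine ContinuousLinearMap.opNorm_le_bound _ (norm_nonneg _) (fun x => ?_)
  simp only [ContinuousLinearMap.comp_apply, lp.singleContinuousLinearMap_apply]
  rw [lp.norm_single (by norm_num)]
  exact (v γ).le_opNorm x

/-- Multiplication on the monomial of exponent `β`. -/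
noncomputable def mulT (v : (Fin n → ℕ) → (E →L[ℂ] F)) (β : Fin n → ℕ) :
    E →L[ℂ] A (Fin n → ℕ) F :=
  ∑' γ, (lp.singleContinuousLinearMap ℂ (fun _ : Fin n → ℕ => F) 1 (γ + β)) ∘L v γ

theorem mulT_norm_le (v : (Fin n → ℕ) → (E →L[ℂ] F)) (hv : Summable (fun γ => ‖v γ‖))
    (β : Fin n → ℕ) : ‖mulT v β‖ ≤ ∑' γ, ‖v γ‖ := by
  unfold mulT
  refine (norm_tsum_le_tsum_norm (mulT_summable v hv β)).trans ?_
  refine (mulT_summable v hv β).tsum_le_tsum (fun γ => ?_) hv
  refine ContinuousLinearMap.opNorm_le_bound _ (norm_nonneg _) (fun x => ?_)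
  simp only [ContinuousLinearMap.comp_apply, lp.singleContinuousLinearMap_apply]
  rw [lp.norm_single (by norm_num)]
  exact (v γ).le_opNorm x

theorem mulT_hasSum (v : (Fin n → ℕ) → (E →L[ℂ] F)) (hv : Summable (fun γ => ‖v γ‖))
    (β : Fin n → ℕ) (x : E) :
    HasSum (fun γ => (lp.single 1 (γ + β) (v γ x) : A (Fin n → ℕ) F)) (mulT v β x) := by
  have h1 : HasSum (fun γ => (lp.singleContinuousLinearMap ℂ (fun _ : Fin n → ℕ => F) 1 (γ + β)) ∘L
      v γ) (mulT v β) := (mulT_summable v hv β).of_norm.hasSum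
  have h2 := h1.mapL (ContinuousLinearMap.apply ℂ (A (Fin n → ℕ) F) x)
  exact h2

theorem opEv_hasSum (t : P n) (v : (Fin n → ℕ) → (E →L[ℂ] F)) (hv : Summable (fun γ => ‖v γ‖))
    (x : E) : HasSum (fun γ => mon t.1 γ • (v γ x)) (opEv t v x) := by
  have h4 : HasSum (fun γ => mon t.1 γ • v γ) (opEv t v) := (opEv_summable t v hv).of_norm.hasSum
  exact h4.mapL (ContinuousLinearMap.apply ℂ F x)

theorem ev_mulT (t : P n) (v : (Fin n → ℕ) → (E →L[ℂ] F)) (hv : Summable (fun γ => ‖v γ‖))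
    (β : Fin n → ℕ) (x : E) : ev t (mulT v β x) = mon t.1 β • (opEv t v x) := by
  have h2 := mulT_hasSum v hv β x
  have h3 : HasSum (fun γ => ev t (lp.single 1 (γ + β) (v γ x) : A (Fin n → ℕ) F))
    (ev t (mulT v β x)) := h2.mapL (ev t)
  have h5 := opEv_hasSum t v hv x
  have h6 : HasSum (fun γ => mon t.1 β • (mon t.1 γ • (v γ x))) (mon t.1 β • opEv t v x) :=
    h5.const_smul (mon t.1 β)
  have e : (fun γ => ev t (lp.single 1 (γ + β) (v γ x) : A (Fin n → ℕ) F)) =
      fun γ => mon t.1 β • (mon t.1 γ • (v γ x)) := by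
    funext γ
    rw [ev_single, mon_add, smul_smul, mul_comm]
  rw [e] at h3
  exact h3.unique h6

/-- Multiplication by an operator valued series. -/
noncomputable def mulMap (v : (Fin n → ℕ) → (E →L[ℂ] F)) (hv : Summable (fun γ => ‖v γ‖)) :
    A (Fin n → ℕ) E →L[ℂ] A (Fin n → ℕ) F :=
  sumMap (mulT v) (∑' γ, ‖v γ‖) (mulT_norm_le v hv)

theorem mulMap_norm_le (v : (Fin n → ℕ) → (E →L[ℂ] F)) (hv : Summable (fun γ => ‖v γ‖))
    (a : A (Fin n → ℕ) E) : ‖mulMap v hv a‖ ≤ (∑' γ, ‖v γ‖) * ‖a‖ :=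
  sumMap_norm_le _ _ _ _

theorem ev_mulMap (t : P n) (v : (Fin n → ℕ) → (E →L[ℂ] F)) (hv : Summable (fun γ => ‖v γ‖))
    (a : A (Fin n → ℕ) E) : ev t (mulMap v hv a) = opEv t v (ev t a) := by
  have h1 : HasSum (fun β => mulT v β (a β)) (mulMap v hv a) := sumMap_hasSum _ _ _ _
  have h2 := (ev t).hasSum h1
  have h3 := (opEv t v).hasSum (ev_hasSum t a)
  have e : (fun β => ev t (mulT v β (a β))) = fun β => opEv t v (mon t.1 β • a β) := by
    funext β
    rw [ev_mulT t v hv, map_smul]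
  rw [e] at h2
  exact h2.unique h3

end ev

section division

open Classical in
/-- Division by standard monomials: normal forms exist with norm control. -/
theorem division {n : ℕ} (Z : Set (P n)) (U : Set (Fin n → ℕ))
    (c : (Fin n → ℕ) → A (Fin n → ℕ) ℂ) (hc : ∀ β ∈ U, ‖c β‖ ≤ 1/2)
    (hev : ∀ β ∈ U, ∀ t ∈ Z, ev t (c β) = mon t.1 β)
    {E : Type*} [NormedAddCommGroup E] [NormedSpace ℂ E] [CompleteSpace E]
    (a : A (Fin n → ℕ) E) :
    ∃ b : A (Fin n → ℕ) E, ‖b‖ ≤ 2 * ‖a‖ ∧ (∀ β ∈ U, b β = 0) ∧ ∀ t ∈ Z, ev t a = ev t b := by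
  have hcs : ∀ β, Summable (fun γ => ‖c β γ • ContinuousLinearMap.id ℂ E‖) := by
    intro β
    refine Summable.of_nonneg_of_le (fun _ => norm_nonneg _) (fun γ => ?_) (A_summable (c β))
    rw [norm_smul]
    calc ‖c β γ‖ * ‖ContinuousLinearMap.id ℂ E‖ ≤ ‖c β γ‖ * 1 := by
          gcongr
          exact ContinuousLinearMap.norm_id_le
      _ = ‖c β γ‖ := mul_one _
  let T : (Fin n → ℕ) → (E →L[ℂ] A (Fin n → ℕ) E) := fun β =>
    if β ∈ U then mulT (fun γ => c β γ • ContinuousLinearMap.id ℂ E) 0 else 0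
  have hT : ∀ β, ‖T β‖ ≤ 1/2 := by
    intro β
    by_cases hβ : β ∈ U
    · simp only [T, if_pos hβ]
      refine (mulT_norm_le _ (hcs β) 0).trans ?_
      refine le_trans ?_ (hc β hβ)
      rw [A_norm]
      refine (hcs β).tsum_le_tsum (fun γ => ?_) (A_summable (c β))
      rw [norm_smul]
      calc ‖c β γ‖ * ‖ContinuousLinearMap.id ℂ E‖ ≤ ‖c β γ‖ * 1 := by
            gcongr
            exact ContinuousLinearMap.norm_id_le
        _ = ‖c β γ‖ := mul_one _
    · simp only [T, if_neg hβ, norm_zero]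
      norm_num
  have hTev : ∀ β, ∀ t ∈ Z, ∀ x : E, ev t (T β x) = if β ∈ U then mon t.1 β • x else 0 := by
    intro β t ht x
    by_cases hβ : β ∈ U
    · simp only [T, if_pos hβ]
      rw [ev_mulT t _ (hcs β), mon_zero, one_smul]
      have h1 := opEv_hasSum t _ (hcs β) x
      have h2 : HasSum (fun γ => (mon t.1 γ • c β γ) • x) (ev t (c β) • x) :=
        (ev_hasSum t (c β)).smul_const x
      rw [hev β hβ t ht] at h2
      refine h1.unique ?_
      have e : (fun γ => mon t.1 γ • ((c β γ • ContinuousLinearMap.id ℂ E) x)) =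
          fun γ => (mon t.1 γ • c β γ) • x := by
        funext γ
        rw [smul_apply, ContinuousLinearMap.id_apply, smul_smul, smul_eq_mul]
      rw [e]
      exact h2
    · simp only [T, if_neg hβ]
      simp
  have key := iterate_solve (A := A (Fin n → ℕ) E) (B := A (Fin n → ℕ) E) (τ := Z ⊕ U) (Y := E)
    (fun t => Sum.elim (fun t => ev t.1) (fun _ => 0) t)
    (fun t => Sum.elim (fun t => ev t.1)
      (fun β => lp.evalCLM ℂ (fun _ : Fin n → ℕ => E) 1 β.1) t)
    Set.univ 1 zero_le_one ?_ a (Set.mem_univ _)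
  · obtain ⟨b, hb1, hb2⟩ := key
    refine ⟨b, by simpa using hb1, ?_, ?_⟩
    · intro β hβ
      have := hb2 (Sum.inr ⟨β, hβ⟩)
      simp only [Sum.elim_inr, zero_apply] at this
      exact this.symm
    · intro t ht
      have := hb2 (Sum.inl ⟨t, ht⟩)
      simpa only [Sum.elim_inl] using this
  · intro a _
    have hbs : Summable (fun β => ‖if β ∈ U then (0 : E) else a β‖) := by
      refine Summable.of_nonneg_of_le (fun _ => norm_nonneg _) (fun γ => ?_) (A_summable a)
      split_ifs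
      · simp
      · exact le_rfl
    refine ⟨Amk _ hbs, sumMap T (1/2) hT a, Set.mem_univ _, ?_, sumMap_norm_le _ _ _ _, ?_⟩
    · rw [one_mul, A_norm a]
      refine A_norm_le (A_summable a) (fun β => ?_)
      rw [Amk_apply]
      split_ifs
      · simp
      · exact le_rfl
    · rintro (t | β)
      · simp only [Sum.elim_inl]
        have h1 := ev_hasSum t.1 a
        have h2 := ev_hasSum t.1 (Amk _ hbs)
        have h3 := (sumMap_hasSum T (1/2) hT a).mapL (ev t.1)
        refine h1.unique ?_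
        have h4 := h2.add h3
        have e : (fun β => mon t.1.1 β • a β) = (fun β => mon t.1.1 β • (Amk _ hbs) β +
            ev t.1 (T β (a β))) := by
          funext β
          rw [hTev β t.1 t.2, Amk_apply]
          split_ifs <;> simp
        rw [e]
        exact h4
      · simp only [Sum.elim_inr]
        have h0 : (lp.evalCLM ℂ (fun _ : Fin n → ℕ => E) 1 β.1) (Amk _ hbs) = 0 := by
          change (if β.1 ∈ U then (0 : E) else a β.1) = 0
          rw [if_pos β.2]
        rw [h0]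
        simp

end division

section solve

variable {n : ℕ} {E F : Type*} [NormedAddCommGroup E] [NormedSpace ℂ E] [CompleteSpace E]
  [NormedAddCommGroup F] [NormedSpace ℂ F] [CompleteSpace F]

theorem mapA_summable (L : E →L[ℂ] F) (a : A (Fin n → ℕ) E) : Summable (fun β => ‖L (a β)‖) := by
  refine Summable.of_nonneg_of_le (fun _ => norm_nonneg _) (fun γ => ?_)
    ((A_summable a).mul_left ‖L‖)
  exact L.le_opNorm _

/-- Coefficientwise application. -/
def mapA (L : E →L[ℂ] F) (a : A (Fin n → ℕ) E) : A (Fin n → ℕ) F :=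
  Amk (fun β => L (a β)) (mapA_summable L a)

theorem ev_mapA (t : P n) (L : E →L[ℂ] F) (a : A (Fin n → ℕ) E) :
    ev t (mapA L a) = L (ev t a) := by
  have h1 := ev_hasSum t (mapA L a)
  have h2 := (ev_hasSum t a).mapL L
  have e : (fun β => L (mon t.1 β • a β)) = fun β => mon t.1 β • (mapA L a) β := by
    funext β
    rw [map_smul]
    rfl
  rw [e] at h2
  exact h1.unique h2

theorem uniq_vec (Z : Set (P n)) (U : Set (Fin n → ℕ))
    (huniq : ∀ c : A (Fin n → ℕ) ℂ, (∀ β ∈ U, c β = 0) → (∀ t ∈ Z, ev t c = 0) → ∀ β, c β = 0)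
    (a : A (Fin n → ℕ) E) (h0 : ∀ β ∈ U, a β = 0) (h : ∀ t ∈ Z, ev t a = 0) :
    ∀ β, a β = 0 := by
  intro β
  apply SeparatingDual.eq_zero_of_forall_dual_eq_zero (R := ℂ)
  intro L
  have := huniq (mapA L a) (fun γ hγ => by
      change L (a γ) = 0
      rw [h0 γ hγ, map_zero])
    (fun t ht => by rw [ev_mapA, h t ht, map_zero]) β
  exact this

end solve

end Pool.Agent.Work.MP_4bc1d7_an
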