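import Pool.Agent.Work.MP_4bc1d7_an.Scaled

set_option autoImplicit false
set_option linter.unusedSectionVars false

open Filter Topology Metric
open scoped ENNReal

namespace Pool.Agent.Work.MP_4bc1d7_an

/-- The `i`-th prime. -/
noncomputable def pr (i : ℕ) : ℕ := Nat.nth Nat.Prime i

theorem pr_prime (i : ℕ) : (pr i).Prime := Nat.nth_mem_of_infinite Nat.infinite_setOfPred_prime i

theorem pr_inj {i j : ℕ} (h : pr i = pr j) : i = j :=
  Nat.nth_injective Nat.infinite_setOfPred_prime h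

/-- Integer weight of an exponent. -/
noncomputable def NN {n : ℕ} (β : Fin n → ℕ) : ℕ := ∏ i : Fin n, pr i ^ β i

theorem NN_pos {n : ℕ} (β : Fin n → ℕ) : 0 < NN β :=
  Finset.prod_pos (fun i _ => pow_pos (pr_prime i).pos _)

theorem NN_zero {n : ℕ} : NN (0 : Fin n → ℕ) = 1 := by simp [NN]

theorem NN_add {n : ℕ} (β γ : Fin n → ℕ) : NN (β + γ) = NN β * NN γ := by
  unfold NN
  rw [← Finset.prod_mul_distrib]
  exact Finset.prod_congr rfl (fun i _ => by rw [Pi.add_apply, pow_add])

theorem NN_factorization {n : ℕ} (β : Fin n → ℕ) (j : Fin n) :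
    (NN β).factorization (pr j) = β j := by
  unfold NN
  rw [Nat.factorization_prod (S := Finset.univ) (g := fun i : Fin n => pr i ^ β i)
    (fun i _ => pow_ne_zero _ (pr_prime i).ne_zero)]
  rw [Finsupp.finsetSum_apply, Finset.sum_eq_single j]
  · rw [(pr_prime j).factorization_pow, Finsupp.single_eq_same]
  · intro i _ hij
    rw [(pr_prime i).factorization_pow, Finsupp.single_apply, if_neg]
    intro h
    exact hij (Fin.ext (pr_inj h))
  · intro h
    exact absurd (Finset.mem_univ _) h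

theorem NN_inj {n : ℕ} {β γ : Fin n → ℕ} (h : NN β = NN γ) : β = γ := by
  funext j
  rw [← NN_factorization β j, h, NN_factorization]

/-- real weights -/
noncomputable def wt {n : ℕ} (s : ℕ) (β : Fin n → ℕ) : ℝ := ((NN β : ℝ)⁻¹) ^ s

theorem wt_pos {n : ℕ} (s : ℕ) (β : Fin n → ℕ) : 0 < wt s β := by
  have := NN_pos β
  unfold wt
  positivity

/-- radii -/
noncomputable def rad (s : ℕ) (i : ℕ) : ℝ := ((pr i : ℝ)⁻¹) ^ s

theorem rad_pos (s i : ℕ) : 0 < rad s i := by
  have := (pr_prime i).pos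
  unfold rad
  positivity

theorem rad_antitone {s s' : ℕ} (h : s ≤ s') (i : ℕ) : rad s' i ≤ rad s i := by
  unfold rad
  apply pow_le_pow_of_le_one _ _ h
  · positivity
  · apply inv_le_one_of_one_le₀
    exact_mod_cast (pr_prime i).one_lt.le

theorem rad_le_half (s i : ℕ) : rad s i ≤ (1/2)^s := by
  unfold rad
  have h2 : (2 : ℝ) ≤ pr i := by exact_mod_cast (pr_prime i).two_le
  have h3 : ((pr i : ℝ)⁻¹) ≤ 1/2 := by
    rw [inv_eq_one_div]
    exact one_div_le_one_div_of_le (by norm_num) h2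
  gcongr

theorem wt_eq {n : ℕ} (s : ℕ) (β : Fin n → ℕ) : wt s β = ∏ i : Fin n, rad s i ^ β i := by
  unfold wt NN rad
  push_cast
  rw [← Finset.prod_inv_distrib, ← Finset.prod_pow]
  refine Finset.prod_congr rfl (fun i _ => ?_)
  rw [← inv_pow, ← pow_mul, ← pow_mul, mul_comm]

theorem wt_antitone {n : ℕ} {s s' : ℕ} (h : s ≤ s') (β : Fin n → ℕ) : wt s' β ≤ wt s β := by
  unfold wt
  apply pow_le_pow_of_le_one _ _ h
  · positivity
  · apply inv_le_one_of_one_le₀
    exact_mod_cast NN_pos β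

/-- scaling of a point -/
noncomputable def scl {n : ℕ} (s : ℕ) (t : Fin n → ℂ) : Fin n → ℂ := fun i => (rad s i : ℂ) * t i

theorem mon_scl {n : ℕ} (s : ℕ) (t : Fin n → ℂ) (β : Fin n → ℕ) :
    mon (scl s t) β = (wt s β : ℂ) * mon t β := by
  unfold mon scl
  rw [wt_eq]
  push_cast
  rw [← Finset.prod_mul_distrib]
  exact Finset.prod_congr rfl (fun i _ => by rw [mul_pow])

/-- Tails are small. -/
theorem tail_small {n : ℕ} (g : (Fin n → ℕ) → ℝ) (hg0 : ∀ γ, 0 ≤ g γ) (s0 : ℕ)
    (hs : Summable (fun γ => g γ * wt s0 γ)) (e : Fin n → ℕ)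
    (he : ∀ γ, NN γ < NN e → g γ = 0) (δ : ℝ) (hδ : 0 < δ) :
    ∃ S, ∀ s ≥ S, Summable (fun γ => if γ = e then 0 else g γ * ((NN e : ℝ) / NN γ) ^ s) ∧
      ∑' γ, (if γ = e then 0 else g γ * ((NN e : ℝ) / NN γ) ^ s) < δ := by
  have hNe : (0 : ℝ) < NN e := by exact_mod_cast NN_pos e
  have hN : ∀ γ : Fin n → ℕ, (0 : ℝ) < NN γ := fun γ => by exact_mod_cast NN_pos γ
  set bound : (Fin n → ℕ) → ℝ := fun γ => g γ * wt s0 γ * (NN e : ℝ) ^ s0 with hbound
  have hbs : Summable bound := hs.mul_right _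
  have hterm : ∀ s ≥ s0, ∀ γ, ‖(if γ = e then 0 else g γ * ((NN e : ℝ) / NN γ) ^ s)‖ ≤ bound γ := by
    intro s hss γ
    split_ifs with hγ
    · rw [norm_zero]
      have := wt_pos s0 γ
      have := hg0 γ
      positivity
    · rw [Real.norm_of_nonneg (by have := hg0 γ; positivity)]
      rcases lt_or_ge (NN γ) (NN e) with hlt | hge
      · rw [he γ hlt]
        simp [hbound, he γ hlt]
      · have hr : (NN e : ℝ) / NN γ ≤ 1 := by
          rw [div_le_one (hN γ)]
          exact_mod_cast hge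
        have h1 : ((NN e : ℝ) / NN γ) ^ s ≤ ((NN e : ℝ) / NN γ) ^ s0 :=
          pow_le_pow_of_le_one (by positivity) hr hss
        calc g γ * ((NN e : ℝ) / NN γ) ^ s ≤ g γ * ((NN e : ℝ) / NN γ) ^ s0 :=
              mul_le_mul_of_nonneg_left h1 (hg0 γ)
          _ = bound γ := by
              simp only [hbound, wt]
              rw [div_pow, inv_pow]
              ring
  have hlim : ∀ γ, Tendsto (fun s : ℕ => (if γ = e then 0 else g γ * ((NN e : ℝ) / NN γ) ^ s))
      atTop (𝓝 0) := by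
    intro γ
    split_ifs with hγ
    · exact tendsto_const_nhds
    · rcases lt_or_ge (NN γ) (NN e) with hlt | hge
      · rw [he γ hlt]
        simp
      · have hlt' : NN e < NN γ := lt_of_le_of_ne hge (fun h => hγ (NN_inj h).symm)
        have hr : (NN e : ℝ) / NN γ < 1 := by
          rw [div_lt_one (hN γ)]
          exact_mod_cast hlt'
        have := (tendsto_pow_atTop_nhds_zero_of_lt_one (by positivity) hr).const_mul (g γ)
        simpa using this
  have hT := tendsto_tsum_of_dominated_convergence (𝓕 := atTop)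
    (f := fun (s : ℕ) (γ : Fin n → ℕ) => (if γ = e then 0 else g γ * ((NN e : ℝ) / NN γ) ^ s))
    (g := fun _ => (0 : ℝ)) hbs hlim (by
      filter_upwards [eventually_ge_atTop s0] with s hss γ
      exact hterm s hss γ)
  rw [tsum_zero] at hT
  have hev := (hT.eventually (gt_mem_nhds hδ)).and (eventually_ge_atTop s0)
  obtain ⟨S, hS⟩ := eventually_atTop.mp hev
  refine ⟨S, fun s hs' => ⟨?_, (hS s hs').1⟩⟩
  exact Summable.of_norm_bounded hbs (hterm s (hS s hs').2)

end Pool.Agent.Work.MP_4bc1d7_an
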